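import Mathlib

/-!
# The Macaulay-type bound `D e m`
-/

namespace Pool.Agent.Hhelper4.NS

/-- `lowerMac d n` is `n_{⟨d⟩}`: if `n = C(n_d,d) + C(n_{d-1},d-1) + ⋯ + C(n_j,j)` is the
`d`-th Macaulay expansion of `n` (obtained greedily: `n_d` is the greatest `k` with
`C(k,d) ≤ n`, and one continues with `n - C(n_d,d)` and `d-1` until the remainder is `0`), then
`lowerMac d n = C(n_d-1,d) + C(n_{d-1}-1,d-1) + ⋯ + C(n_j-1,j)`, and `lowerMac d 0 = 0`. -/
def lowerMac : ℕ → ℕ → ℕ
  | 0, _ => 0
  | d + 1, n =>
    if n = 0 then 0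
    else
      (Nat.findGreatest (fun k => k.choose (d + 1) ≤ n) (n + d + 1) - 1).choose (d + 1) +
        lowerMac d (n - (Nat.findGreatest (fun k => k.choose (d + 1) ≤ n) (n + d + 1)).choose (d + 1))

/-- The integer `r` with `C(e+r-1,r-1) ≤ m < C(e+r,r)`: the least `r` with `m < C(e+r,r)`. -/
noncomputable def level (e m : ℕ) : ℕ := sInf {r | m < (e + r).choose r}

/-- The bound `D(e,m) = C(e+r-2,r-1) + s_{⟨r⟩}`, where `r = level e m` and
`s = m - C(e+r-1,r-1)`. -/
noncomputable def D (e m : ℕ) : ℕ :=
  (e + level e m - 2).choose (level e m - 1) +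
    lowerMac (level e m) (m - (e + level e m - 1).choose (level e m - 1))

theorem level_two {e m : ℕ} (h1 : e < m) (h2 : m < (e + 2).choose 2) : level e m = 2 := by
  unfold level
  apply le_antisymm
  · exact Nat.sInf_le h2
  · apply le_csInf ⟨2, h2⟩
    intro r hr
    simp only [Set.mem_setOf_eq] at hr
    by_contra hlt
    have : r = 0 ∨ r = 1 := by omega
    rcases this with rfl | rfl
    · simp at hr; omega
    · simp at hr; omega

theorem level_three {e : ℕ} (he : 1 ≤ e) : level e ((e + 2).choose 2) = 3 := by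
  unfold level
  have h3 : (e + 2).choose 2 < (e + 3).choose 3 := by
    have h := Nat.choose_succ_succ' (e + 2) 2
    have : 0 < (e + 2).choose 3 := Nat.choose_pos (by omega)
    change (e + 3).choose 3 = (e + 2).choose 2 + (e + 2).choose 3 at h
    omega
  have hc : e + 1 ≤ (e + 2).choose 2 := by
    rw [Nat.choose_succ_succ' (e + 1) 1]
    simp
  apply le_antisymm
  · exact Nat.sInf_le h3
  · apply le_csInf ⟨3, h3⟩
    intro r hr
    simp only [Set.mem_setOf_eq] at hr
    by_contra hlt
    have : r = 0 ∨ r = 1 ∨ r = 2 := by omega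
    rcases this with rfl | rfl | rfl
    · simp at hr; omega
    · simp at hr; omega
    · simp at hr

theorem lowerMac_zero (d : ℕ) : lowerMac d 0 = 0 := by
  cases d <;> simp [lowerMac]

theorem lowerMac_one (n : ℕ) : lowerMac 1 n = n - 1 := by
  by_cases hn : n = 0
  · subst hn; simp [lowerMac_zero]
  · have h : Nat.findGreatest (fun k => k.choose (0 + 1) ≤ n) (n + 0 + 1) = n := by
      rw [Nat.findGreatest_eq_iff]
      refine ⟨by omega, fun _ => by simp, ?_⟩
      intro k hk _
      simp
      omega
    unfold lowerMac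
    rw [if_neg hn, h]
    simp [lowerMac]

theorem tri_succ (k : ℕ) : (k + 1) * (k + 1 + 1) / 2 = k * (k + 1) / 2 + (k + 1) := by
  have : (k + 1) * (k + 1 + 1) = k * (k + 1) + 2 * (k + 1) := by ring
  rw [this]
  omega

theorem choose_two (k : ℕ) : (k + 1).choose 2 = k * (k + 1) / 2 := by
  rw [Nat.choose_two_right]
  simp [Nat.mul_comm]

/-- `lowerMac 2` in closed form -/
theorem lowerMac_two {s q : ℕ} (hq : s ≤ q * (q + 1) / 2)
    (hmin : ∀ q', s ≤ q' * (q' + 1) / 2 → q ≤ q') : lowerMac 2 s + q = s := by
  by_cases hs : s = 0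
  · subst hs
    have := hmin 0 (by simp)
    simp [lowerMac_zero]
    omega
  · -- q ≥ 1
    obtain ⟨p, rfl⟩ : ∃ p, q = p + 1 := by
      refine Nat.exists_eq_succ_of_ne_zero ?_
      rintro rfl
      simp at hq
      omega
    have hp : p * (p + 1) / 2 < s := by
      by_contra hcon
      have := hmin p (by omega)
      omega
    rw [tri_succ] at hq
    rcases Nat.lt_or_ge s (p * (p + 1) / 2 + (p + 1)) with hlt | hge
    · -- k = p + 1
      have h : Nat.findGreatest (fun k => k.choose (1 + 1) ≤ s) (s + 1 + 1) = p + 1 := by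
        rw [Nat.findGreatest_eq_iff]
        refine ⟨?_, ?_, ?_⟩
        · have : p ≤ p * (p + 1) / 2 + 1 := by
            rw [Nat.le_iff_lt_add_one]
            have h1 : 2 * p ≤ p * (p + 1) + 2 := by nlinarith [sq_nonneg ((p:ℤ) - 1)]
            omega
          omega
        · intro _
          change (p + 1).choose 2 ≤ s
          rw [choose_two]
          omega
        · intro k hk _ hle
          change k.choose 2 ≤ s at hle
          have h2 : (p + 2).choose 2 ≤ k.choose 2 := Nat.choose_le_choose 2 (by omega)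
          rw [choose_two (p + 1), tri_succ] at h2
          omega
      unfold lowerMac
      rw [if_neg hs, h]
      change (p + 1 - 1).choose 2 + lowerMac 1 (s - (p + 1).choose 2) + (p + 1) = s
      rw [lowerMac_one, choose_two]
      rcases p with _ | p
      · simp
        omega
      · simp only [Nat.add_sub_cancel]
        rw [choose_two]
        rw [tri_succ] at hp ⊢
        omega
    · -- s = (p+1)(p+2)/2, k = p+2
      have hs' : s = p * (p + 1) / 2 + (p + 1) := by omega
      have h : Nat.findGreatest (fun k => k.choose (1 + 1) ≤ s) (s + 1 + 1) = p + 2 := by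
        rw [Nat.findGreatest_eq_iff]
        refine ⟨?_, ?_, ?_⟩
        · omega
        · intro _
          change (p + 2).choose 2 ≤ s
          rw [choose_two (p + 1), tri_succ]
          omega
        · intro k hk _ hle
          change k.choose 2 ≤ s at hle
          have h2 : (p + 3).choose 2 ≤ k.choose 2 := Nat.choose_le_choose 2 (by omega)
          rw [choose_two (p + 2), tri_succ, tri_succ] at h2
          omega
      unfold lowerMac
      rw [if_neg hs, h]
      change (p + 2 - 1).choose 2 + lowerMac 1 (s - (p + 2).choose 2) + (p + 1) = s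
      rw [lowerMac_one, choose_two (p + 1), tri_succ, hs']
      simp
      rw [choose_two]

/-- The bound `D` in the range `e < m < C(e+2,2)`. -/
theorem D_two {e m q : ℕ} (h1 : e < m) (h2 : m < (e + 2).choose 2)
    (hq : m - 1 - e ≤ q * (q + 1) / 2)
    (hmin : ∀ q', m - 1 - e ≤ q' * (q' + 1) / 2 → q ≤ q') : D e m = m - 1 - q := by
  unfold D
  rw [level_two h1 h2]
  have h3 := lowerMac_two hq hmin
  simp only [Nat.add_sub_cancel]
  change e.choose 1 + lowerMac 2 (m - (e + 2 - 1).choose 1) = m - 1 - q
  have h4 : m - (e + 2 - 1).choose 1 = m - 1 - e := by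
    rw [Nat.choose_one_right]
    omega
  rw [h4, Nat.choose_one_right]
  omega

/-- The bound `D` for `m = C(e+2,2)`. -/
theorem D_three {e : ℕ} (he : 1 ≤ e) : D e ((e + 2).choose 2) = (e + 2).choose 2 - 1 - e := by
  unfold D
  rw [level_three he]
  change (e + 3 - 2).choose 2 + lowerMac 3 ((e + 2).choose 2 - (e + 3 - 1).choose 2) = _
  have h1 : (e + 2).choose 2 - (e + 3 - 1).choose 2 = 0 := by
    simp
  rw [h1, lowerMac_zero]
  have h2 : (e + 2).choose 2 = (e + 1).choose 1 + (e + 1).choose 2 := Nat.choose_succ_succ' (e + 1) 1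
  rw [h2, Nat.choose_one_right]
  change (e + 1).choose 2 + 0 = _
  omega

end Pool.Agent.Hhelper4.NS
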