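import Mathlib

/-!
# Numerical semigroups: multiplicity, embedding dimension, type, and their
description through Apery functions on `ZMod m`.
-/

namespace Pool.Agent.Hhelper4.NS

open Finset

/-- A numerical semigroup: an additive submonoid of `ℕ` with finite complement. -/
def IsNumerical (Γ : AddSubmonoid ℕ) : Prop := ((Γ : Set ℕ)ᶜ).Finite

/-- The minimal generators of `Γ`: the nonzero elements of `Γ` that are not a sum of two
nonzero elements of `Γ`. -/
def minGens (Γ : AddSubmonoid ℕ) : Set ℕ :=
  {x | x ∈ Γ ∧ x ≠ 0 ∧ ∀ y ∈ Γ, ∀ z ∈ Γ, y ≠ 0 → z ≠ 0 → y + z ≠ x}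

/-- The embedding dimension: the least number of elements of a generating set of `Γ`. -/
noncomputable def edim (Γ : AddSubmonoid ℕ) : ℕ :=
  sInf {n | ∃ S : Finset ℕ, S.card = n ∧ AddSubmonoid.closure (S : Set ℕ) = Γ}

/-- The multiplicity: the least nonzero element of `Γ`. -/
noncomputable def mult (Γ : AddSubmonoid ℕ) : ℕ := sInf {x | x ∈ Γ ∧ x ≠ 0}

/-- The pseudo-Frobenius numbers of `Γ`: the integers `p` outside `Γ` such that `p + γ ∈ Γ`
for every nonzero `γ ∈ Γ`. -/
def PF (Γ : AddSubmonoid ℕ) : Set ℤ :=
  {p | (∀ x ∈ Γ, (x : ℤ) ≠ p) ∧ ∀ γ ∈ Γ, γ ≠ 0 → ∃ x ∈ Γ, (x : ℤ) = p + γ}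

/-- The type of `Γ`: the number of its pseudo-Frobenius numbers. -/
noncomputable def type (Γ : AddSubmonoid ℕ) : ℕ := (PF Γ).ncard

/-- `T e m`: the supremum of the types of the numerical semigroups with embedding
dimension `e + 1` and multiplicity `m`. -/
noncomputable def T (e m : ℕ) : ℕ :=
  sSup {t | ∃ Γ : AddSubmonoid ℕ, IsNumerical Γ ∧ edim Γ = e + 1 ∧ mult Γ = m ∧ type Γ = t}

/-- Apery functions modulo `m`: `w x` is the least element of the semigroup in the class `x`. -/
structure IsApery (m : ℕ) (w : ZMod m → ℕ) : Prop where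
  zero : w 0 = 0
  cast : ∀ x, ((w x : ℕ) : ZMod m) = x
  add : ∀ x y, w (x + y) ≤ w x + w y
  lt : ∀ x, x ≠ 0 → m < w x

variable {m : ℕ}

/-- The semigroup with Apery function `w`. -/
def sg (w : ZMod m → ℕ) (h : IsApery m w) : AddSubmonoid ℕ where
  carrier := {n | w (n : ZMod m) ≤ n}
  zero_mem' := by simp [h.zero]
  add_mem' := by
    intro a b ha hb
    simp only [Set.mem_setOf_eq] at *
    push_cast
    exact (h.add _ _).trans (by omega)

theorem mem_sg {w : ZMod m → ℕ} (h : IsApery m w) (n : ℕ) :
    n ∈ sg w h ↔ w (n : ZMod m) ≤ n := Iff.rfl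

theorem w_mem {w : ZMod m → ℕ} (h : IsApery m w) (x : ZMod m) : w x ∈ sg w h := by
  rw [mem_sg, h.cast]

theorem w_eq_zero {w : ZMod m → ℕ} (h : IsApery m w) {x : ZMod m} (hx : w x = 0) : x = 0 := by
  have := h.cast x
  rw [hx] at this
  simpa using this.symm

theorem sg_numerical [NeZero m] {w : ZMod m → ℕ} (h : IsApery m w) : IsNumerical (sg w h) := by
  classical
  refine Set.Finite.subset (Set.finite_lt_nat (∑ x : ZMod m, w x + 1)) ?_
  intro n hn
  simp only [Set.mem_compl_iff, SetLike.mem_coe, mem_sg, not_le] at hn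
  simp only [Set.mem_setOf_eq]
  have : w (n : ZMod m) ≤ ∑ x : ZMod m, w x :=
    Finset.single_le_sum (f := w) (fun _ _ => Nat.zero_le _) (Finset.mem_univ _)
  omega

theorem m_mem {w : ZMod m → ℕ} (h : IsApery m w) : m ∈ sg w h := by
  rw [mem_sg]
  simp [h.zero]

theorem cast_ne_zero_of_lt [NeZero m] {n : ℕ} (h0 : n ≠ 0) (hn : n < m) : (n : ZMod m) ≠ 0 := by
  intro h
  rw [ZMod.natCast_eq_zero_iff] at h
  exact h0 (Nat.eq_zero_of_dvd_of_lt h hn)

theorem sg_mult [NeZero m] {w : ZMod m → ℕ} (h : IsApery m w) : mult (sg w h) = m := by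
  unfold mult
  apply le_antisymm
  · exact Nat.sInf_le ⟨m_mem h, NeZero.ne m⟩
  · have hmem : m ∈ {x | x ∈ sg w h ∧ x ≠ 0} := ⟨m_mem h, NeZero.ne m⟩
    apply le_csInf ⟨m, hmem⟩
    rintro n ⟨hn, hn0⟩
    by_contra hlt
    push Not at hlt
    have h1 := h.lt _ (cast_ne_zero_of_lt hn0 hlt)
    rw [mem_sg] at hn
    omega

/-- Every numerical semigroup comes from an Apery function. -/
theorem exists_apery {Γ : AddSubmonoid ℕ} (hΓ : IsNumerical Γ) (hm : mult Γ = m) (hm0 : m ≠ 0) :
    ∃ (w : ZMod m → ℕ) (h : IsApery m w), sg w h = Γ := by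
  classical
  haveI : NeZero m := ⟨hm0⟩
  have hmΓ : m ∈ Γ := by
    have hne : {x | x ∈ Γ ∧ x ≠ 0}.Nonempty := by
      by_contra hemp
      rw [Set.not_nonempty_iff_eq_empty] at hemp
      apply hm0
      rw [← hm]
      unfold mult
      rw [hemp]
      simp
    have := Nat.sInf_mem hne
    unfold mult at hm
    rw [hm] at this
    exact this.1
  have hmmin : ∀ x ∈ Γ, x ≠ 0 → m ≤ x := by
    intro x hx hx0
    rw [← hm]
    exact Nat.sInf_le ⟨hx, hx0⟩
  have hkm : ∀ k : ℕ, k * m ∈ Γ := by
    intro k
    have := AddSubmonoid.nsmul_mem Γ hmΓ k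
    simpa using this
  -- nonempty classes
  have hne : ∀ x : ZMod m, ∃ n, n ∈ Γ ∧ (n : ZMod m) = x := by
    intro x
    obtain ⟨B, hB⟩ := hΓ.bddAbove
    refine ⟨x.val + (B + 1) * m, ?_, ?_⟩
    · by_contra hnot
      have h1 : x.val + (B + 1) * m ≤ B := hB (by simpa using hnot)
      have h2 : B + 1 ≤ (B + 1) * m := Nat.le_mul_of_pos_right _ (Nat.pos_of_ne_zero hm0)
      omega
    · push_cast
      simp
  let w : ZMod m → ℕ := fun x => Nat.find (hne x)
  have hw1 : ∀ x, w x ∈ Γ := fun x => (Nat.find_spec (hne x)).1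
  have hw2 : ∀ x, ((w x : ℕ) : ZMod m) = x := fun x => (Nat.find_spec (hne x)).2
  have hw3 : ∀ x n, n ∈ Γ → (n : ZMod m) = x → w x ≤ n := fun x n h1 h2 => Nat.find_min' (hne x) ⟨h1, h2⟩
  have hA : IsApery m w := by
    refine ⟨?_, hw2, ?_, ?_⟩
    · have := hw3 0 0 Γ.zero_mem (by simp)
      omega
    · intro x y
      apply hw3
      · exact Γ.add_mem (hw1 x) (hw1 y)
      · push_cast
        rw [hw2, hw2]
    · intro x hx
      have h0 : w x ≠ 0 := by
        intro h0
        apply hx
        have := hw2 x
        rw [h0] at this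
        simpa using this.symm
      have h1 := hmmin (w x) (hw1 x) h0
      rcases Nat.lt_or_ge m (w x) with h2 | h2
      · exact h2
      · exfalso
        have h3 : w x = m := le_antisymm h2 h1
        apply hx
        have := hw2 x
        rw [h3] at this
        simpa using this.symm
  refine ⟨w, hA, ?_⟩
  ext n
  rw [mem_sg]
  constructor
  · intro hn
    have hc : ((w (n : ZMod m) : ℕ) : ZMod m) = (n : ZMod m) := hw2 _
    have hc2 : w (n : ZMod m) ≡ n [MOD m] := (ZMod.natCast_eq_natCast_iff _ _ _).1 hc
    obtain ⟨k, hk⟩ := (Nat.modEq_iff_dvd' hn).1 hc2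
    have : n = w (n : ZMod m) + k * m := by
      rw [Nat.mul_comm k m, ← hk]
      omega
    rw [this]
    exact Γ.add_mem (hw1 _) (hkm k)
  · intro hn
    exact hw3 _ n hn rfl

/-- `x` is maximal in the Apery poset. -/
def IsMax (w : ZMod m → ℕ) (x : ZMod m) : Prop := ∀ y, y ≠ 0 → w (x + y) ≠ w x + w y

/-- `x` is an atom of the Apery poset. -/
def IsAtom (w : ZMod m → ℕ) (x : ZMod m) : Prop :=
  x ≠ 0 ∧ ∀ y z, y ≠ 0 → z ≠ 0 → y + z = x → w y + w z ≠ w x

open Classical in
/-- the type is the number of maximal elements -/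
theorem type_sg [NeZero m] {w : ZMod m → ℕ} (h : IsApery m w) :
    type (sg w h) = (univ.filter (fun x : ZMod m => IsMax w x)).card := by
  unfold type
  have key : PF (sg w h) = (fun x : ZMod m => (w x : ℤ) - m) ''
      ((univ.filter (fun x : ZMod m => IsMax w x) : Finset (ZMod m)) : Set (ZMod m)) := by
    ext p
    simp only [PF, Set.mem_setOf_eq, Set.mem_image, Finset.coe_filter, Finset.mem_univ, true_and]
    constructor
    · rintro ⟨hp1, hp2⟩
      obtain ⟨n, hn, hnp⟩ := hp2 m (m_mem h) (NeZero.ne m)
      -- n = p + m ∈ Γ, p ∉ Γ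
      have hwn : w (n : ZMod m) ≤ n := (mem_sg h n).1 hn
      have hnw : n = w (n : ZMod m) := by
        by_contra hne
        have hlt : w (n : ZMod m) < n := by omega
        have hc : w (n : ZMod m) ≡ n [MOD m] := (ZMod.natCast_eq_natCast_iff _ _ _).1 (h.cast _)
        obtain ⟨k, hk⟩ := (Nat.modEq_iff_dvd' hwn).1 hc
        have hk0 : k ≠ 0 := by
          rintro rfl
          omega
        have hmn : m ≤ n := by
          have : m ≤ m * k := Nat.le_mul_of_pos_right _ (Nat.pos_of_ne_zero hk0)
          omega
        apply hp1 (n - m)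
        · rw [mem_sg]
          have h1 : ((n - m : ℕ) : ZMod m) = (n : ZMod m) := by
            rw [Nat.cast_sub hmn]
            simp
          rw [h1]
          have : m ≤ m * k := Nat.le_mul_of_pos_right _ (Nat.pos_of_ne_zero hk0)
          omega
        · rw [Nat.cast_sub hmn]
          omega
      refine ⟨(n : ZMod m), ?_, ?_⟩
      · intro y hy heq
        obtain ⟨n', hn', hnp'⟩ := hp2 (w y) (w_mem h y) (fun h0 => hy (w_eq_zero h h0))
        -- n' = p + w y = n - m + w y
        have h1 : ((n' : ℕ) : ℤ) + m = (n : ℤ) + w y := by omega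
        have h2 : n' + m = n + w y := by exact_mod_cast h1
        have h3 : (n' : ZMod m) = (n : ZMod m) + y := by
          have := congrArg (fun t : ℕ => (t : ZMod m)) h2
          simpa [h.cast] using this
        have h4 := (mem_sg h n').1 hn'
        rw [h3, heq, ← hnw] at h4
        have := NeZero.pos m
        omega
      · rw [← hnw]
        omega
    · rintro ⟨x, hx, rfl⟩
      constructor
      · intro n hn heq
        have h1 : ((n : ℕ) : ℤ) + m = w x := by omega
        have h2 : n + m = w x := by exact_mod_cast h1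
        have h3 : (n : ZMod m) = x := by
          have := congrArg (fun t : ℕ => (t : ZMod m)) h2
          simpa [h.cast] using this
        have h4 := (mem_sg h n).1 hn
        rw [h3] at h4
        have := NeZero.pos m
        omega
      · intro γ hγ hγ0
        have hγw := (mem_sg h γ).1 hγ
        by_cases hg : (γ : ZMod m) = 0
        · -- γ multiple of m
          obtain ⟨k, hk⟩ := (ZMod.natCast_eq_zero_iff _ _).1 hg
          have hk0 : k ≠ 0 := by
            rintro rfl
            omega
          obtain ⟨k', rfl⟩ := Nat.exists_eq_succ_of_ne_zero hk0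
          refine ⟨w x + m * k', ?_, ?_⟩
          · rw [mem_sg]
            have : ((w x + m * k' : ℕ) : ZMod m) = x := by
              push_cast
              rw [h.cast]
              simp
            rw [this]
            omega
          · rw [hk]
            push_cast
            ring
        · have h1 := hx _ hg
          have h2 := h.add x (γ : ZMod m)
          have hlt : w (x + (γ : ZMod m)) < w x + w (γ : ZMod m) := lt_of_le_of_ne h2 h1
          have hc : w (x + (γ : ZMod m)) ≡ w x + w (γ : ZMod m) [MOD m] := by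
            apply (ZMod.natCast_eq_natCast_iff _ _ _).1
            push_cast
            rw [h.cast, h.cast, h.cast]
          obtain ⟨k, hk⟩ := (Nat.modEq_iff_dvd' h2).1 hc
          have hk0 : k ≠ 0 := by
            rintro rfl
            omega
          have hmk : m ≤ m * k := Nat.le_mul_of_pos_right _ (Nat.pos_of_ne_zero hk0)
          have hle : m ≤ w x + γ := by omega
          refine ⟨w x + γ - m, ?_, ?_⟩
          · rw [mem_sg]
            have : ((w x + γ - m : ℕ) : ZMod m) = x + γ := by
              rw [Nat.cast_sub hle]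
              push_cast
              rw [h.cast]
              simp
            rw [this]
            omega
          · rw [Nat.cast_sub hle]
            push_cast
            ring
  rw [key, Set.ncard_image_of_injOn, Set.ncard_coe_finset]
  intro x _ y _ hxy
  simp only at hxy
  have h1 : (w x : ℤ) = w y := by omega
  have h2 : w x = w y := by exact_mod_cast h1
  rw [← h.cast x, ← h.cast y, h2]

/-- the minimal generators of `sg w`. -/
theorem minGens_sg [NeZero m] {w : ZMod m → ℕ} (h : IsApery m w) :
    minGens (sg w h) = insert m (w '' {x | IsAtom w x}) := by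
  ext n
  simp only [minGens, Set.mem_setOf_eq, Set.mem_insert_iff, Set.mem_image]
  constructor
  · rintro ⟨hn, hn0, hn2⟩
    by_cases hnm : n = m
    · exact Or.inl hnm
    · right
      have hwn := (mem_sg h n).1 hn
      have hnw : w (n : ZMod m) = n := by
        by_contra hne
        have hlt : w (n : ZMod m) < n := by omega
        have hc : w (n : ZMod m) ≡ n [MOD m] := (ZMod.natCast_eq_natCast_iff _ _ _).1 (h.cast _)
        obtain ⟨k, hk⟩ := (Nat.modEq_iff_dvd' hwn).1 hc
        have hk0 : k ≠ 0 := by
          rintro rfl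
          omega
        have hmk : m ≤ m * k := Nat.le_mul_of_pos_right _ (Nat.pos_of_ne_zero hk0)
        have hmn : m ≤ n := by omega
        refine hn2 (n - m) ?_ m (m_mem h) (by omega) (NeZero.ne m) (by omega)
        rw [mem_sg]
        have h1 : ((n - m : ℕ) : ZMod m) = (n : ZMod m) := by
          rw [Nat.cast_sub hmn]
          simp
        rw [h1]
        omega
      refine ⟨(n : ZMod m), ⟨?_, ?_⟩, hnw⟩
      · intro h0
        rw [h0, h.zero] at hnw
        exact hn0 hnw.symm
      · intro y z hy hz hyz heq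
        refine hn2 (w y) (w_mem h y) (w z) (w_mem h z) (fun h0 => hy (w_eq_zero h h0))
          (fun h0 => hz (w_eq_zero h h0)) ?_
        rw [heq, hnw]
  · rintro (rfl | ⟨x, ⟨hx0, hx⟩, rfl⟩)
    · refine ⟨m_mem h, NeZero.ne _, ?_⟩
      intro y hy z hz hy0 hz0 heq
      have hmul := sg_mult h
      have h1 : mult (sg w h) ≤ y := Nat.sInf_le ⟨hy, hy0⟩
      omega
    · refine ⟨w_mem h x, fun h0 => hx0 (w_eq_zero h h0), ?_⟩
      intro y hy z hz hy0 hz0 heq
      have hy' := (mem_sg h y).1 hy
      have hz' := (mem_sg h z).1 hz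
      have hxyz : (y : ZMod m) + (z : ZMod m) = x := by
        have := congrArg (fun t : ℕ => (t : ZMod m)) heq
        simpa [h.cast] using this
      have hadd := h.add (y : ZMod m) (z : ZMod m)
      rw [hxyz] at hadd
      by_cases hy1 : (y : ZMod m) = 0
      · -- y multiple of m, y ≥ m; then z ≥ w z = w x
        rw [hy1, zero_add] at hxyz
        rw [hxyz] at hz'
        omega
      · by_cases hz1 : (z : ZMod m) = 0
        · rw [hz1, add_zero] at hxyz
          rw [hxyz] at hy'
          omega
        · exact hx _ _ hy1 hz1 hxyz (by omega)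

/-- the minimal generators generate -/
theorem closure_minGens (Γ : AddSubmonoid ℕ) : AddSubmonoid.closure (minGens Γ) = Γ := by
  apply le_antisymm
  · rw [AddSubmonoid.closure_le]
    intro x hx
    exact hx.1
  · intro x
    induction x using Nat.strong_induction_on with
    | _ x ih =>
      intro hx
      by_cases hx0 : x = 0
      · rw [hx0]
        exact AddSubmonoid.zero_mem _
      by_cases hg : x ∈ minGens Γ
      · exact AddSubmonoid.subset_closure hg
      · simp only [minGens, Set.mem_setOf_eq, not_and, not_forall] at hg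
        obtain ⟨y, hy, z, hz, hy0, hz0, hyz⟩ := hg hx hx0
        rw [not_not] at hyz
        rw [← hyz]
        exact AddSubmonoid.add_mem _ (ih y (by omega) hy) (ih z (by omega) hz)

/-- every generating set contains the minimal generators -/
theorem minGens_subset (Γ : AddSubmonoid ℕ) (S : Set ℕ) (hS : AddSubmonoid.closure S = Γ) :
    minGens Γ ⊆ S := by
  rintro x ⟨hx, hx0, hx2⟩
  by_contra hxS
  have key : ∀ y ∈ AddSubmonoid.closure S, y = x → False := by
    intro y hy
    induction hy using AddSubmonoid.closure_induction with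
    | mem y hyS =>
      rintro rfl
      exact hxS hyS
    | zero =>
      intro h
      exact hx0 h.symm
    | add a b ha hb iha ihb =>
      intro hab
      by_cases ha0 : a = 0
      · exact ihb (by omega)
      by_cases hb0 : b = 0
      · exact iha (by omega)
      rw [hS] at ha hb
      exact hx2 a ha b hb ha0 hb0 hab
  rw [← hS] at hx
  exact key x hx rfl

theorem edim_eq (Γ : AddSubmonoid ℕ) (hfin : (minGens Γ).Finite) :
    edim Γ = (minGens Γ).ncard := by
  unfold edim
  apply le_antisymm
  · apply Nat.sInf_le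
    refine ⟨hfin.toFinset, ?_, ?_⟩
    · rw [Set.ncard_eq_toFinset_card _ hfin]
    · rw [Set.Finite.coe_toFinset]
      exact closure_minGens Γ
  · apply le_csInf
    · exact ⟨_, hfin.toFinset, rfl, by rw [Set.Finite.coe_toFinset]; exact closure_minGens Γ⟩
    · rintro n ⟨S, rfl, hS⟩
      have := minGens_subset Γ S hS
      rw [← Set.ncard_coe_finset]
      exact Set.ncard_le_ncard this S.finite_toSet

open Classical in
/-- the embedding dimension in terms of atoms -/
theorem edim_sg [NeZero m] {w : ZMod m → ℕ} (h : IsApery m w) :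
    edim (sg w h) = (univ.filter (fun x : ZMod m => IsAtom w x)).card + 1 := by
  have hfin : (w '' {x | IsAtom w x}).Finite := (Set.toFinite _).image _
  have hnot : m ∉ w '' {x | IsAtom w x} := by
    rintro ⟨x, hx, hxm⟩
    have := h.lt x hx.1
    omega
  rw [edim_eq _ (by rw [minGens_sg h]; exact hfin.insert _), minGens_sg h,
    Set.ncard_insert_of_notMem hnot hfin, Set.ncard_image_of_injOn]
  · congr 1
    rw [← Set.ncard_coe_finset]
    congr 1
    ext x
    simp
  · intro x _ y _ hxy
    rw [← h.cast x, ← h.cast y, hxy]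

end Pool.Agent.Hhelper4.NS
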