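import Mathlib
import Pool.Agent.Hhelper4.NumSemigroup

/-!
# Upper bound for the type by pairs, and the construction with sums of two atoms
-/

namespace Pool.Agent.Hhelper4.NS

open Finset

variable {m : ℕ}

open Classical in
/-- nonzero elements that are not maximal -/
noncomputable def nonMax [NeZero m] (w : ZMod m → ℕ) : Finset (ZMod m) :=
  univ.filter (fun x => x ≠ 0 ∧ ¬ IsMax w x)

open Classical in
/-- nonzero elements that are not atoms -/
noncomputable def nonAtom [NeZero m] (w : ZMod m → ℕ) : Finset (ZMod m) :=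
  univ.filter (fun x => x ≠ 0 ∧ ¬ IsAtom w x)

theorem mem_nonMax [NeZero m] {w : ZMod m → ℕ} {x : ZMod m} :
    x ∈ nonMax w ↔ x ≠ 0 ∧ ∃ y, y ≠ 0 ∧ w (x + y) = w x + w y := by
  simp [nonMax, IsMax]

theorem mem_nonAtom [NeZero m] {w : ZMod m → ℕ} {x : ZMod m} :
    x ∈ nonAtom w ↔ x ≠ 0 ∧ ∃ y z, y ≠ 0 ∧ z ≠ 0 ∧ y + z = x ∧ w y + w z = w x := by
  simp only [nonAtom, IsAtom, mem_filter, mem_univ, true_and, not_and, not_forall, not_not]
  constructor
  · rintro ⟨h1, h2⟩
    obtain ⟨y, z, hy, hz, hyz, hw⟩ := h2 h1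
    exact ⟨h1, y, z, hy, hz, hyz, hw⟩
  · rintro ⟨h1, y, z, hy, hz, hyz, hw⟩
    exact ⟨h1, fun _ => ⟨y, z, hy, hz, hyz, hw⟩⟩

theorem type_add [NeZero m] {w : ZMod m → ℕ} (h : IsApery m w) (hm : 2 ≤ m) :
    type (sg w h) + (nonMax w).card + 1 = m := by
  classical
  rw [type_sg h]
  have h0 : ¬ IsMax w (0 : ZMod m) := by
    intro hmax
    haveI : Fact (1 < m) := ⟨hm⟩
    exact hmax 1 one_ne_zero (by rw [zero_add, h.zero, zero_add])
  have h1 : (univ : Finset (ZMod m)) =
      insert 0 (univ.filter (fun x : ZMod m => IsMax w x) ∪ nonMax w) := by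
    ext x
    simp only [mem_univ, mem_insert, mem_union, mem_filter, true_and, nonMax, true_iff]
    by_cases hx : x = 0
    · exact Or.inl hx
    · by_cases hmx : IsMax w x
      · exact Or.inr (Or.inl hmx)
      · exact Or.inr (Or.inr ⟨hx, hmx⟩)
  have h2 : (univ : Finset (ZMod m)).card = m := by
    rw [card_univ, ZMod.card]
  rw [h1, card_insert_of_notMem, card_union_of_disjoint] at h2
  · exact h2
  · rw [Finset.disjoint_left]
    intro x hx hx2
    simp only [mem_filter, mem_univ, true_and, nonMax] at hx hx2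
    exact hx2.2 hx
  · simp only [mem_union, mem_filter, mem_univ, true_and, nonMax, not_or]
    exact ⟨h0, fun h => h.1 rfl⟩

theorem edim_add [NeZero m] {w : ZMod m → ℕ} (h : IsApery m w) :
    edim (sg w h) + (nonAtom w).card = m := by
  classical
  rw [edim_sg h]
  have h1 : (univ : Finset (ZMod m)) =
      insert 0 (univ.filter (fun x : ZMod m => IsAtom w x) ∪ nonAtom w) := by
    ext x
    simp only [mem_univ, mem_insert, mem_union, mem_filter, true_and, nonAtom, true_iff]
    by_cases hx : x = 0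
    · exact Or.inl hx
    · by_cases hmx : IsAtom w x
      · exact Or.inr (Or.inl hmx)
      · exact Or.inr (Or.inr ⟨hx, hmx⟩)
  have h2 : (univ : Finset (ZMod m)).card = m := by
    rw [card_univ, ZMod.card]
  rw [h1, card_insert_of_notMem, card_union_of_disjoint] at h2
  · omega
  · rw [Finset.disjoint_left]
    intro x hx hx2
    simp only [mem_filter, mem_univ, true_and, nonAtom] at hx hx2
    exact hx2.2 hx
  · simp only [mem_union, mem_filter, mem_univ, true_and, nonAtom, not_or]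
    exact ⟨fun h => h.1 rfl, fun h => h.1 rfl⟩

/-- Each nonzero non-atom is the sum of an unordered pair of nonmaximal elements. -/
theorem exists_pair [NeZero m] {w : ZMod m → ℕ} {x : ZMod m}
    (hx : x ∈ nonAtom w) : ∃ y ∈ nonMax w, ∃ z ∈ nonMax w, y + z = x ∧ w y + w z = w x := by
  obtain ⟨hx0, y, z, hy, hz, hyz, hw⟩ := mem_nonAtom.1 hx
  refine ⟨y, mem_nonMax.2 ⟨hy, z, hz, ?_⟩, z, mem_nonMax.2 ⟨hz, y, hy, ?_⟩, hyz, hw⟩
  · rw [hyz, hw]
  · rw [add_comm z y, hyz, ← hw, add_comm]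

/-- the sum of an unordered pair -/
def pairSum {G : Type*} [AddCommMonoid G] : Sym2 G → G :=
  Sym2.lift ⟨fun a b => a + b, fun a b => add_comm a b⟩

@[simp] theorem pairSum_mk {G : Type*} [AddCommMonoid G] (a b : G) :
    pairSum s(a, b) = a + b := rfl

theorem nonAtom_subset [NeZero m] [DecidableEq (ZMod m)] {w : ZMod m → ℕ} :
    nonAtom w ⊆ (nonMax w).sym2.image pairSum := by
  intro x hx
  obtain ⟨y, hy, z, hz, hyz, -⟩ := exists_pair hx
  rw [mem_image]
  exact ⟨s(y, z), by simp [Finset.mk_mem_sym2_iff, hy, hz], by simpa using hyz⟩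

theorem card_nonAtom_le [NeZero m] {w : ZMod m → ℕ} :
    (nonAtom w).card ≤ (nonMax w).card * ((nonMax w).card + 1) / 2 := by
  classical
  refine (card_le_card nonAtom_subset).trans (card_image_le.trans ?_)
  rw [Finset.card_sym2, Nat.choose_two_right]
  simp [Nat.mul_comm]

/-- the set of types of semigroups with given embedding dimension and multiplicity -/
theorem T_bdd (e m : ℕ) (hm : 2 ≤ m) : BddAbove {t | ∃ Γ : AddSubmonoid ℕ,
    IsNumerical Γ ∧ edim Γ = e + 1 ∧ mult Γ = m ∧ type Γ = t} := by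
  refine ⟨m, ?_⟩
  rintro t ⟨Γ, h1, h2, h3, rfl⟩
  haveI : NeZero m := ⟨by omega⟩
  obtain ⟨w, hw, rfl⟩ := exists_apery h1 h3 (by omega)
  have := type_add hw hm
  omega

/-- The upper bound. -/
theorem T_le {e m q : ℕ} (hm : 2 ≤ m) (hem : e < m)
    (hq : ∀ q', m - 1 - e ≤ q' * (q' + 1) / 2 → q ≤ q') : T e m ≤ m - 1 - q := by
  unfold T
  haveI : NeZero m := ⟨by omega⟩
  by_cases hne : {t | ∃ Γ : AddSubmonoid ℕ,
    IsNumerical Γ ∧ edim Γ = e + 1 ∧ mult Γ = m ∧ type Γ = t}.Nonempty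
  · apply csSup_le hne
    rintro t ⟨Γ, h1, h2, h3, rfl⟩
    obtain ⟨w, hw, rfl⟩ := exists_apery h1 h3 (by omega)
    have a1 := type_add hw hm
    have a2 := edim_add hw
    have a3 := card_nonAtom_le (w := w)
    have a4 := hq (nonMax w).card (by
      refine le_trans (le_of_eq ?_) a3
      omega)
    omega
  · rw [Set.not_nonempty_iff_eq_empty] at hne
    rw [hne]
    simp

theorem le_T {e m t : ℕ} (hm : 2 ≤ m) (Γ : AddSubmonoid ℕ)
    (h1 : IsNumerical Γ) (h2 : edim Γ = e + 1) (h3 : mult Γ = m) (h4 : t ≤ type Γ) :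
    t ≤ T e m := by
  refine h4.trans ?_
  exact le_csSup (T_bdd e m hm) ⟨Γ, h1, h2, h3, rfl⟩

/-! ### The construction -/

section construction

variable [NeZero m] (Q S : Finset (ZMod m))

open Classical in
/-- the Apery function of the construction: elements of `Q` have weight about `4m`, isolated
atoms weight about `6m`, and the elements of `S`, sums of two elements of `Q`, weight
about `8m`. -/
noncomputable def wt (x : ZMod m) : ℕ :=
  if x = 0 then 0
  else if x ∈ Q then 4 * m + x.val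
  else if x ∈ S then
    if ∃ a ∈ Q, ∃ b ∈ Q, a + b = x ∧ a.val + b.val < m then 8 * m + x.val
    else 9 * m + x.val
  else 6 * m + x.val

variable {Q S}

theorem wt_zero : wt Q S 0 = 0 := by simp [wt]

theorem wt_Q (h0 : 0 ∉ Q) {x : ZMod m} (hx : x ∈ Q) : wt Q S x = 4 * m + x.val := by
  have : x ≠ 0 := fun h => h0 (h ▸ hx)
  simp [wt, this, hx]

theorem wt_iso {x : ZMod m} (h0 : x ≠ 0) (hx : x ∉ Q) (hx2 : x ∉ S) :
    wt Q S x = 6 * m + x.val := by
  simp [wt, h0, hx, hx2]

theorem wt_S_cases (hQS : Disjoint Q S) (h0 : 0 ∉ S) {x : ZMod m} (hx : x ∈ S) :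
    (wt Q S x = 8 * m + x.val ∧ ∃ a ∈ Q, ∃ b ∈ Q, a + b = x ∧ a.val + b.val < m) ∨
    (wt Q S x = 9 * m + x.val ∧ ∀ a ∈ Q, ∀ b ∈ Q, a + b = x → m ≤ a.val + b.val) := by
  have hx0 : x ≠ 0 := fun h => h0 (h ▸ hx)
  have hxQ : x ∉ Q := fun h => (Finset.disjoint_left.1 hQS h) hx
  by_cases hex : ∃ a ∈ Q, ∃ b ∈ Q, a + b = x ∧ a.val + b.val < m
  · left
    refine ⟨?_, hex⟩
    unfold wt
    rw [if_neg hx0, if_neg hxQ, if_pos hx, if_pos hex]
  · right
    constructor
    · unfold wt
      rw [if_neg hx0, if_neg hxQ, if_pos hx, if_neg hex]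
    · intro a ha b hb hab
      by_contra hlt
      push Not at hlt
      exact hex ⟨a, ha, b, hb, hab, hlt⟩

theorem wt_le (hQS : Disjoint Q S) (h0 : 0 ∉ Q) (h0' : 0 ∉ S) (x : ZMod m) :
    wt Q S x < 10 * m := by
  have hv := x.val_lt
  by_cases hx0 : x = 0
  · rw [hx0, wt_zero]
    have := NeZero.pos m
    omega
  by_cases hxQ : x ∈ Q
  · rw [wt_Q h0 hxQ]; omega
  by_cases hxS : x ∈ S
  · rcases wt_S_cases hQS h0' hxS with ⟨h, -⟩ | ⟨h, -⟩ <;> omega
  · rw [wt_iso hx0 hxQ hxS]; omega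

theorem wt_ge (hQS : Disjoint Q S) (h0 : 0 ∉ Q) (h0' : 0 ∉ S) {x : ZMod m} (hx : x ≠ 0) :
    4 * m < wt Q S x ∧ (x ∉ Q → 6 * m < wt Q S x) := by
  have hv : 0 < x.val := Nat.pos_of_ne_zero (by rwa [ne_eq, ZMod.val_eq_zero])
  by_cases hxQ : x ∈ Q
  · rw [wt_Q h0 hxQ]
    exact ⟨by omega, fun h => absurd hxQ h⟩
  by_cases hxS : x ∈ S
  · rcases wt_S_cases hQS h0' hxS with ⟨h, -⟩ | ⟨h, -⟩
    · constructor
      · omega
      · intro _; omega
    · constructor
      · omega
      · intro _; omega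
  · rw [wt_iso hx hxQ hxS]
    constructor
    · omega
    · intro _; omega

/-- If `w (x+y)` is not smaller than `w x + w y` then `x, y ∈ Q` and `x + y ∈ S`. -/
theorem wt_add (hQS : Disjoint Q S) (h0 : 0 ∉ Q) (h0' : 0 ∉ S) {x y : ZMod m}
    (hx : x ≠ 0) (hy : y ≠ 0) :
    wt Q S (x + y) < wt Q S x + wt Q S y ∨
      (x ∈ Q ∧ y ∈ Q ∧ x + y ∈ S ∧ wt Q S (x + y) ≤ wt Q S x + wt Q S y) := by
  have hm := NeZero.pos m
  have hxy := wt_le hQS h0 h0' (x + y)
  have gx := wt_ge hQS h0 h0' hx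
  have gy := wt_ge hQS h0 h0' hy
  by_cases hxQ : x ∈ Q
  · by_cases hyQ : y ∈ Q
    · by_cases hS : x + y ∈ S
      · right
        refine ⟨hxQ, hyQ, hS, ?_⟩
        rw [wt_Q h0 hxQ, wt_Q h0 hyQ]
        have hval := ZMod.val_add x y
        rcases wt_S_cases hQS h0' hS with ⟨h, -⟩ | ⟨h, h'⟩
        · rw [h]
          have : (x + y).val ≤ x.val + y.val := ZMod.val_add_le x y
          omega
        · rw [h]
          have h1 := h' x hxQ y hyQ rfl
          have h2 : (x + y).val = x.val + y.val - m := by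
            rw [hval, Nat.mod_eq_sub_mod h1]
            apply Nat.mod_eq_of_lt
            have := x.val_lt
            have := y.val_lt
            omega
          omega
      · left
        have hlt : wt Q S (x + y) < 7 * m := by
          by_cases hz : x + y = 0
          · rw [hz, wt_zero]; omega
          by_cases hzQ : x + y ∈ Q
          · rw [wt_Q h0 hzQ]
            have := (x + y).val_lt
            omega
          · rw [wt_iso hz hzQ hS]
            have := (x + y).val_lt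
            omega
        omega
    · left
      have := gy.2 hyQ
      omega
  · left
    have := gx.2 hxQ
    omega

theorem wt_apery (hQS : Disjoint Q S) (h0 : 0 ∉ Q) (h0' : 0 ∉ S) : IsApery m (wt Q S) := by
  refine ⟨wt_zero, ?_, ?_, ?_⟩
  · intro x
    by_cases hx0 : x = 0
    · rw [hx0, wt_zero]; simp
    by_cases hxQ : x ∈ Q
    · rw [wt_Q h0 hxQ]; simp
    by_cases hxS : x ∈ S
    · rcases wt_S_cases hQS h0' hxS with ⟨h, -⟩ | ⟨h, -⟩ <;> rw [h] <;> simp
    · rw [wt_iso hx0 hxQ hxS]; simp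
  · intro x y
    by_cases hx : x = 0
    · rw [hx, zero_add, wt_zero, zero_add]
    by_cases hy : y = 0
    · rw [hy, add_zero, wt_zero, add_zero]
    rcases wt_add hQS h0 h0' hx hy with h | h
    · exact h.le
    · exact h.2.2.2
  · intro x hx
    have := (wt_ge hQS h0 h0' hx).1
    omega

/-- The construction: `Q` does not contain `0`, `S` consists of nonzero sums of two elements
of `Q` outside `Q`. -/
theorem construction (hQS : Disjoint Q S) (h0 : 0 ∉ Q) (h0' : 0 ∉ S)
    (hS : ∀ x ∈ S, ∃ a ∈ Q, ∃ b ∈ Q, a + b = x) (hm : 2 ≤ m) :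
    m - 1 - Q.card ≤ T (m - 1 - S.card) m := by
  classical
  have hA := wt_apery hQS h0 h0'
  have hnM : nonMax (wt Q S) ⊆ Q := by
    intro x hx
    obtain ⟨hx0, y, hy, hxy⟩ := mem_nonMax.1 hx
    rcases wt_add hQS h0 h0' hx0 hy with h | h
    · omega
    · exact h.1
  have hnA : nonAtom (wt Q S) = S := by
    ext x
    constructor
    · intro hx
      obtain ⟨hx0, y, z, hy, hz, hyz, hw⟩ := mem_nonAtom.1 hx
      rcases wt_add hQS h0 h0' hy hz with h | h
      · rw [hyz] at h
        omega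
      · rw [← hyz]
        exact h.2.2.1
    · intro hx
      have hx0 : x ≠ 0 := fun h => h0' (h ▸ hx)
      rcases wt_S_cases hQS h0' hx with ⟨h, a, ha, b, hb, hab, hlt⟩ | ⟨h, h'⟩
      · refine mem_nonAtom.2 ⟨hx0, a, b, fun h => h0 (h ▸ ha), fun h => h0 (h ▸ hb), hab, ?_⟩
        rw [wt_Q h0 ha, wt_Q h0 hb, h, ← hab, ZMod.val_add_of_lt hlt]
        ring
      · obtain ⟨a, ha, b, hb, hab⟩ := hS x hx
        refine mem_nonAtom.2 ⟨hx0, a, b, fun h => h0 (h ▸ ha), fun h => h0 (h ▸ hb), hab, ?_⟩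
        have h1 := h' a ha b hb hab
        have h2 : x.val = a.val + b.val - m := by
          rw [← hab, ZMod.val_add, Nat.mod_eq_sub_mod h1]
          apply Nat.mod_eq_of_lt
          have := a.val_lt
          have := b.val_lt
          omega
        rw [wt_Q h0 ha, wt_Q h0 hb, h, h2]
        omega
  have a1 := type_add hA hm
  have a2 := edim_add hA
  rw [hnA] at a2
  have a3 := card_le_card hnM
  have a4 : S.card + 1 ≤ m := by
    have h5 : S ⊂ univ := by
      rw [Finset.ssubset_univ_iff]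
      intro h
      exact h0' (h ▸ mem_univ _)
    have := card_lt_card h5
    rw [card_univ, ZMod.card] at this
    omega
  apply le_T hm (sg (wt Q S) hA) (sg_numerical hA) _ (sg_mult hA)
  · omega
  · omega

end construction

end Pool.Agent.Hhelper4.NS
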