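import Mathlib
import Pool.Agent.Hhelper4.NSTwo
import Pool.Agent.Hhelper4.NSMacaulay

/-!
# Sidon sets modulo `m` and semigroups with maximal type
-/

namespace Pool.Agent.Hhelper4.NS

open Finset

/-- `A` is a Sidon set: sums of two elements determine the summands up to order. -/
def IsSidon {G : Type*} [AddCommMonoid G] (A : Finset G) : Prop :=
  ∀ a ∈ A, ∀ b ∈ A, ∀ c ∈ A, ∀ d ∈ A, a + b = c + d → (a = c ∧ b = d) ∨ (a = d ∧ b = c)

theorem IsSidon.subset {G : Type*} [AddCommMonoid G] {A B : Finset G} (h : IsSidon A)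
    (hBA : B ⊆ A) : IsSidon B :=
  fun a ha b hb c hc d hd => h a (hBA ha) b (hBA hb) c (hBA hc) d (hBA hd)

theorem IsSidon.translate {G : Type*} [AddCommGroup G] [DecidableEq G] {A : Finset G}
    (h : IsSidon A) (t : G) : IsSidon (A.image (fun x => x - t)) := by
  intro a ha b hb c hc d hd habcd
  simp only [mem_image] at ha hb hc hd
  obtain ⟨a, ha, rfl⟩ := ha
  obtain ⟨b, hb, rfl⟩ := hb
  obtain ⟨c, hc, rfl⟩ := hc
  obtain ⟨d, hd, rfl⟩ := hd
  have : a + b = c + d := by
    have h1 : a + b - (t + t) = c + d - (t + t) := by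
      calc a + b - (t + t) = (a - t) + (b - t) := by abel
        _ = (c - t) + (d - t) := habcd
        _ = c + d - (t + t) := by abel
    exact sub_left_injective h1
  rcases h a ha b hb c hc d hd this with ⟨rfl, rfl⟩ | ⟨rfl, rfl⟩
  · exact Or.inl ⟨rfl, rfl⟩
  · exact Or.inr ⟨rfl, rfl⟩

/-- A nonempty Sidon set can be translated to contain `0`. -/
theorem IsSidon.exists_insert_zero {G : Type*} [AddCommGroup G] [DecidableEq G] {A : Finset G}
    {q : ℕ} (h : IsSidon A) (hA : A.card = q + 1) :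
    ∃ Q : Finset G, Q.card = q ∧ 0 ∉ Q ∧ IsSidon (insert 0 Q) := by
  obtain ⟨t, ht⟩ : A.Nonempty := by
    rw [← card_pos, hA]; omega
  have hinj : Function.Injective (fun x : G => x - t) := sub_left_injective
  have h0 : (0 : G) ∈ A.image (fun x => x - t) := by
    rw [mem_image]
    exact ⟨t, ht, sub_self t⟩
  refine ⟨(A.image (fun x => x - t)).erase 0, ?_, notMem_erase _ _, ?_⟩
  · rw [card_erase_of_mem h0, card_image_of_injective _ hinj, hA]
    simp
  · rw [insert_erase h0]
    exact h.translate t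

theorem card_sym2_eq {α : Type*} [DecidableEq α] (N : Finset α) :
    N.sym2.card = N.card * (N.card + 1) / 2 := by
  rw [Finset.card_sym2, Nat.choose_two_right]
  simp [Nat.mul_comm]

/-- sums of a Sidon set -/
theorem IsSidon.injOn {G : Type*} [AddCommMonoid G] {A : Finset G} (h : IsSidon A) :
    Set.InjOn (pairSum (G := G)) (A.sym2 : Set (Sym2 G)) := by
  intro x hx y hy hxy
  induction x using Sym2.ind with
  | _ a b =>
    induction y using Sym2.ind with
    | _ c d =>
      simp only [coe_sym2, Finset.mem_coe, Sym2.mem_iff', Set.mem_setOf_eq, mk_mem_sym2_iff] at hx hy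
      rw [pairSum_mk, pairSum_mk] at hxy
      have hx' := Finset.mk_mem_sym2_iff.1 (show s(a, b) ∈ A.sym2 by simpa using hx)
      have hy' := Finset.mk_mem_sym2_iff.1 (show s(c, d) ∈ A.sym2 by simpa using hy)
      rcases h a hx'.1 b hx'.2 c hy'.1 d hy'.2 hxy with ⟨rfl, rfl⟩ | ⟨rfl, rfl⟩
      · rfl
      · exact Sym2.eq_swap

variable {m : ℕ}

/-- **Sufficiency**: a Sidon set with `q + 1` elements in `ZMod m` gives a semigroup. -/
theorem le_T_of_sidon {e q : ℕ} {A : Finset (ZMod m)} (hA : IsSidon A) (hcard : A.card = q + 1)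
    (hm : 2 ≤ m) (hem : e < m) (hs : m - 1 - e ≤ q * (q + 1) / 2) :
    m - 1 - q ≤ T e m := by
  classical
  haveI : NeZero m := ⟨by omega⟩
  obtain ⟨Q, hQ, hQ0, hQs⟩ := hA.exists_insert_zero hcard
  have hQsid : IsSidon Q := hQs.subset (subset_insert _ _)
  have himg : (Q.sym2.image pairSum).card = q * (q + 1) / 2 := by
    rw [card_image_of_injOn hQsid.injOn, card_sym2_eq, hQ]
  obtain ⟨S, hSsub, hScard⟩ := exists_subset_card_eq (s := Q.sym2.image pairSum)
    (n := m - 1 - e) (by rw [himg]; exact hs)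
  have hSrep : ∀ x ∈ S, ∃ a ∈ Q, ∃ b ∈ Q, a + b = x := by
    intro x hx
    obtain ⟨p, hp, rfl⟩ := mem_image.1 (hSsub hx)
    induction p using Sym2.ind with
    | _ a b =>
      rw [mk_mem_sym2_iff] at hp
      exact ⟨a, hp.1, b, hp.2, rfl⟩
  have hdis : Disjoint Q S := by
    rw [Finset.disjoint_left]
    intro x hxQ hxS
    obtain ⟨a, ha, b, hb, hab⟩ := hSrep x hxS
    have h := hQs a (mem_insert_of_mem ha) b (mem_insert_of_mem hb) x (mem_insert_of_mem hxQ) 0
      (mem_insert_self _ _) (by rw [hab, add_zero])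
    rcases h with ⟨-, h⟩ | ⟨h, -⟩
    · exact hQ0 (h ▸ hb)
    · exact hQ0 (h ▸ ha)
  have h0S : (0 : ZMod m) ∉ S := by
    intro h0
    obtain ⟨a, ha, b, hb, hab⟩ := hSrep 0 h0
    have h := hQs a (mem_insert_of_mem ha) b (mem_insert_of_mem hb) 0 (mem_insert_self _ _) 0
      (mem_insert_self _ _) (by rw [hab, add_zero])
    rcases h with ⟨h, -⟩ | ⟨h, -⟩ <;> exact hQ0 (h ▸ ha)
  have := construction hdis hQ0 h0S hSrep hm
  rw [hQ, hScard] at this
  have h2 : m - 1 - (m - 1 - e) = e := by omega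
  rwa [h2] at this

/-- **Structure** of the semigroups attaining the bound for triangular numbers. -/
theorem sidon_of_tight [NeZero m] {w : ZMod m → ℕ} (h : IsApery m w) {q : ℕ}
    (hS : (nonAtom w).card = q * (q + 1) / 2) (hN : (nonMax w).card = q) :
    ∃ A : Finset (ZMod m), A.card = q + 1 ∧ IsSidon A := by
  classical
  have himg1 : nonAtom w ⊆ (nonMax w).sym2.image pairSum := nonAtom_subset
  have hcs : (nonMax w).sym2.card = q * (q + 1) / 2 := by rw [card_sym2_eq, hN]
  have himg2 : nonAtom w = (nonMax w).sym2.image pairSum := by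
    apply eq_of_subset_of_card_le himg1
    rw [hS, ← hcs]
    exact card_image_le
  have hinj : Set.InjOn (pairSum (G := ZMod m)) ((nonMax w).sym2 : Set (Sym2 (ZMod m))) := by
    rw [← card_image_iff, ← himg2, hS, hcs]
  have hpair : ∀ a ∈ nonMax w, ∀ b ∈ nonMax w, ∀ c ∈ nonMax w, ∀ d ∈ nonMax w, a + b = c + d →
      (a = c ∧ b = d) ∨ (a = d ∧ b = c) := by
    intro a ha b hb c hc d hd habcd
    have := hinj (show s(a, b) ∈ ((nonMax w).sym2 : Set (Sym2 (ZMod m))) from by
      rw [Finset.mem_coe]; exact mk_mem_sym2_iff.2 ⟨ha, hb⟩)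
      (show s(c, d) ∈ ((nonMax w).sym2 : Set (Sym2 (ZMod m))) from by
      rw [Finset.mem_coe]; exact mk_mem_sym2_iff.2 ⟨hc, hd⟩) (by simpa using habcd)
    simpa [Sym2.eq_iff] using this
  have hsum : ∀ a ∈ nonMax w, ∀ b ∈ nonMax w, a + b ∈ nonAtom w ∧ w (a + b) = w a + w b := by
    intro a ha b hb
    have h1 : a + b ∈ nonAtom w := by
      rw [himg2, mem_image]
      exact ⟨s(a, b), mk_mem_sym2_iff.2 ⟨ha, hb⟩, rfl⟩
    refine ⟨h1, ?_⟩
    obtain ⟨y, hy, z, hz, hyz, hw⟩ := exists_pair h1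
    rcases hpair a ha b hb y hy z hz hyz.symm with ⟨rfl, rfl⟩ | ⟨rfl, rfl⟩
    · exact hw.symm
    · rw [← hw, add_comm]
  have hdis : ∀ c ∈ nonMax w, c ∉ nonAtom w := by
    intro c hc hcS
    obtain ⟨a, ha, b, hb, hab, hw⟩ := exists_pair hcS
    have h2c := (hsum c hc c hc).2
    have hd1 : w (a + b + b) ≤ w (a + b) + w b := h.add _ _
    have hd2 : w (a + b + b + a) ≤ w (a + b + b) + w a := h.add _ _
    have hcc : c + c = a + b + b + a := by rw [← hab]; abel
    rw [hab] at hd1
    rw [← hcc] at hd2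
    have ha0 : a ≠ 0 := (mem_nonMax.1 ha).1
    have hb0 : b ≠ 0 := (mem_nonMax.1 hb).1
    have hwa := h.lt a ha0
    have hd : w (a + b + b) = w a + w b + w b := by
      rw [hab]
      rw [hab] at hd2
      omega
    have hdN : a + b + b ∈ nonMax w := by
      refine mem_nonMax.2 ⟨?_, a, ha0, ?_⟩
      · intro h0
        rw [h0, h.zero] at hd
        omega
      · rw [← hcc, h2c, hd, ← hw]
        ring
    rcases hpair c hc c hc (a + b + b) hdN a ha hcc with ⟨-, h3⟩ | ⟨h3, -⟩
    · rw [h3] at hab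
      exact hb0 (by simpa using hab)
    · rw [h3] at hab
      exact hb0 (by simpa using hab)
  have h0N : (0 : ZMod m) ∉ nonMax w := fun h0 => (mem_nonMax.1 h0).1 rfl
  have h0S : (0 : ZMod m) ∉ nonAtom w := fun h0 => (mem_nonAtom.1 h0).1 rfl
  refine ⟨insert 0 (nonMax w), by rw [card_insert_of_notMem h0N, hN], ?_⟩
  intro a ha b hb c hc d hd habcd
  rw [mem_insert] at ha hb hc hd
  rcases ha with rfl | ha <;> rcases hb with rfl | hb <;> rcases hc with rfl | hc <;>
    rcases hd with rfl | hd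
  · simp
  · left; simpa using habcd
  · right; simpa [eq_comm] using habcd
  · exfalso
    apply h0S
    have := (hsum c hc d hd).1
    rw [← habcd] at this
    simpa using this
  · right; simpa [eq_comm] using habcd
  · left; simpa using habcd
  · right; simpa [eq_comm] using habcd
  · exfalso
    rw [zero_add] at habcd
    exact hdis b hb (habcd ▸ (hsum c hc d hd).1)
  · left; simpa using habcd
  · right; simpa using habcd
  · left; simpa using habcd
  · exfalso
    rw [add_zero] at habcd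
    exact hdis a ha (habcd ▸ (hsum c hc d hd).1)
  · exfalso
    apply h0S
    have := (hsum a ha b hb).1
    rw [habcd] at this
    simpa using this
  · exfalso
    rw [zero_add] at habcd
    exact hdis d hd (habcd ▸ (hsum a ha b hb).1)
  · exfalso
    rw [add_zero] at habcd
    exact hdis c hc (habcd ▸ (hsum a ha b hb).1)
  · exact hpair a ha b hb c hc d hd habcd

/-- a Sidon set in `ZMod m` has at most about `√m` elements -/
theorem IsSidon.card_le [NeZero m] {A : Finset (ZMod m)} (hA : IsSidon A) :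
    A.card * (A.card - 1) + 1 ≤ m := by
  classical
  have hinj : Set.InjOn (fun p : ZMod m × ZMod m => p.1 - p.2) (A.offDiag : Set (ZMod m × ZMod m)) := by
    rintro ⟨a, b⟩ hab ⟨c, d⟩ hcd heq
    simp only [coe_offDiag, Set.mem_offDiag, Finset.mem_coe] at hab hcd
    simp only at heq
    have h1 : a + d = c + b := by
      have := sub_eq_sub_iff_add_eq_add.1 heq
      exact this
    rcases hA a hab.1 d hcd.2.1 c hcd.1 b hab.2.1 h1 with ⟨rfl, rfl⟩ | ⟨h2, h3⟩
    · rfl
    · exact absurd h2 hab.2.2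
  have h2 : (A.offDiag.image (fun p : ZMod m × ZMod m => p.1 - p.2)).card = A.card * A.card - A.card := by
    rw [card_image_of_injOn hinj, offDiag_card]
  have h3 : A.offDiag.image (fun p : ZMod m × ZMod m => p.1 - p.2) ⊆ univ.erase 0 := by
    intro x hx
    obtain ⟨⟨a, b⟩, hab, rfl⟩ := mem_image.1 hx
    rw [mem_offDiag] at hab
    rw [mem_erase]
    exact ⟨fun h => hab.2.2 (sub_eq_zero.1 h), mem_univ _⟩
  have h4 := card_le_card h3
  rw [h2, card_erase_of_mem (mem_univ _), card_univ, ZMod.card] at h4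
  have h5 : A.card * (A.card - 1) = A.card * A.card - A.card := by
    rw [Nat.mul_sub, mul_one]
  have := NeZero.pos m
  omega

end Pool.Agent.Hhelper4.NS
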