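import Mathlib
import Pool.Agent.Hhelper4.NSSidon

/-!
# Sidon sets: Bose-Chowla sets, windows, reduction modulo `m`
-/

namespace Pool.Agent.Hhelper4.NS

open Finset

theorem card_units_galois (p : ℕ) [Fact p.Prime] : Nat.card (GaloisField p 2)ˣ = p ^ 2 - 1 := by
  rw [Nat.card_units, GaloisField.card p 2 (by norm_num)]

/-- Bose-Chowla Sidon sets, cut to a window of integers. -/
theorem exists_sidon_nat (p : ℕ) [hp : Fact p.Prime] (q : ℕ) (hq0 : 1 ≤ q) (hq : q + 1 ≤ p) :
    ∃ B : Finset ℕ, B.card = q + 1 ∧ (∀ b ∈ B, b < q * p) ∧ IsSidon B := by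
  classical
  have hp2 := hp.out.two_le
  set F := GaloisField p 2 with hF
  obtain ⟨g, hg⟩ := IsCyclic.exists_generator (α := Fˣ)
  set M := p ^ 2 - 1 with hM
  have hord : orderOf g = M := by
    rw [orderOf_eq_card_of_forall_mem_zpowers hg, card_units_galois]
  have hpp : p ^ 2 = p * p := sq p
  have hMp : p - 1 < M := by
    have : 2 * p ≤ p * p := Nat.mul_le_mul_right _ hp2
    omega
  have hMpos : 0 < M := by omega
  let θ : F := (g : F)
  let ι : ZMod p →+* F := algebraMap (ZMod p) F
  have hι : Function.Injective ι := ι.injective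
  have hθ : ∀ a : ZMod p, θ ≠ ι a := by
    intro a ha
    have ha0 : a ≠ 0 := by
      rintro rfl
      rw [map_zero] at ha
      exact g.ne_zero ha
    have h1 : a ^ (p - 1) = 1 := ZMod.pow_card_sub_one_eq_one ha0
    have h2 : g ^ (p - 1) = 1 := by
      apply Units.ext
      rw [Units.val_pow_eq_pow_val, Units.val_one]
      change θ ^ (p - 1) = 1
      rw [ha, ← map_pow, h1, map_one]
    have h3 := orderOf_dvd_of_pow_eq_one h2
    rw [hord] at h3
    have := Nat.le_of_dvd (by omega) h3
    omega
  have hne : ∀ a : ZMod p, θ + ι a ≠ 0 := by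
    intro a ha
    apply hθ (-a)
    rw [map_neg]
    exact eq_neg_of_add_eq_zero_left ha
  have hpow : ∀ u : Fˣ, ∃ k < M, g ^ k = u := by
    intro u
    obtain ⟨k, hk, hku⟩ := (IsOfFinOrder.mem_zpowers_iff_mem_range_orderOf (isOfFinOrder_of_finite g)).1 (hg u) |> fun h => by
      simpa using h
    exact ⟨k, by rw [← hord]; exact hk, hku⟩
  -- the periodic predicate
  let P : ℕ → Prop := fun n => ∃ a : ZMod p, (g : F) ^ n = θ + ι a
  have hgM : (g : F) ^ M = 1 := by
    rw [← hord, ← Units.val_pow_eq_pow_val, pow_orderOf_eq_one, Units.val_one]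
  have hPper : Function.Periodic P M := by
    intro n
    simp only [P, pow_add, hgM, mul_one]
  have hcount : ∀ t, ((Finset.Ico t (t + M)).filter P).card = p := by
    intro t
    rw [Nat.filter_Ico_card_eq_of_periodic t M P hPper, Nat.count_eq_card_filter_range]
    have hch : ∀ a : ZMod p, ∃ k < M, (g : F) ^ k = θ + ι a := by
      intro a
      obtain ⟨k, hk, hk2⟩ := hpow (Units.mk0 _ (hne a))
      refine ⟨k, hk, ?_⟩
      rw [← Units.val_pow_eq_pow_val, hk2, Units.val_mk0]
    choose β hβ1 hβ2 using hch
    have himg : (Finset.range M).filter P = univ.image β := by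
      ext k
      simp only [mem_filter, Finset.mem_range, mem_image, mem_univ, true_and]
      constructor
      · rintro ⟨hk, a, ha⟩
        refine ⟨a, ?_⟩
        have h1 : (g : F) ^ (β a) = (g : F) ^ k := by rw [hβ2, ha]
        have h2 : g ^ (β a) = g ^ k := Units.ext (by simpa using h1)
        exact pow_injOn_Iio_orderOf (by rw [hord]; exact hβ1 a) (by rw [hord]; exact hk) h2
      · rintro ⟨a, rfl⟩
        exact ⟨hβ1 a, a, hβ2 a⟩
    have hinj : Function.Injective β := by
      intro a b hab
      have h1 := hβ2 a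
      rw [hab, hβ2 b] at h1
      exact (hι (add_left_cancel h1)).symm
    rw [himg, card_image_of_injective _ hinj, card_univ, ZMod.card]
  -- double counting
  set L := q * p with hL
  have hsum : ∑ t ∈ Finset.range M, ((Finset.range L).filter (fun i => P (t + i))).card = L * p := by
    have h1 : ∀ t, ((Finset.range L).filter (fun i => P (t + i))).card
        = ∑ i ∈ Finset.range L, if P (t + i) then 1 else 0 := by
      intro t
      rw [card_filter]
    simp only [h1]
    rw [Finset.sum_comm]
    have h2 : ∀ i ∈ Finset.range L, (∑ t ∈ Finset.range M, if P (t + i) then 1 else 0) = p := by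
      intro i _
      refine Eq.trans ?_ (hcount i)
      rw [← card_filter]
      apply Finset.card_bij (fun t _ => t + i)
      · intro t ht
        simp only [mem_filter, Finset.mem_range, Finset.mem_Ico] at ht ⊢
        exact ⟨by omega, ht.2⟩
      · intro a _ b _ h
        omega
      · intro b hb
        simp only [mem_filter, Finset.mem_range, Finset.mem_Ico] at hb
        refine ⟨b - i, ?_, by omega⟩
        simp only [mem_filter, Finset.mem_range]
        have : b - i + i = b := by omega
        rw [this]
        exact ⟨by omega, hb.2⟩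
    rw [Finset.sum_congr rfl h2, Finset.sum_const, card_range, smul_eq_mul]
  obtain ⟨t, ht⟩ : ∃ t, q + 1 ≤ ((Finset.range L).filter (fun i => P (t + i))).card := by
    by_contra hcon
    push Not at hcon
    have h1 : ∑ t ∈ Finset.range M, ((Finset.range L).filter (fun i => P (t + i))).card
        ≤ ∑ t ∈ Finset.range M, q := by
      apply Finset.sum_le_sum
      intro t _
      have := hcon t
      omega
    rw [hsum, Finset.sum_const, card_range, smul_eq_mul] at h1
    have h2 : L * p = (M + 1) * q := by
      have : M + 1 = p * p := by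
        have : 0 < p * p := by positivity
        omega
      rw [this, hL]
      ring
    rw [h2] at h1
    have h3 : (M + 1) * q = M * q + q := by ring
    omega
  obtain ⟨B, hBsub, hBcard⟩ := exists_subset_card_eq ht
  refine ⟨B, hBcard, ?_, ?_⟩
  · intro b hb
    have := hBsub hb
    simp only [mem_filter, Finset.mem_range] at this
    exact this.1
  · intro a ha b hb c hc d hd habcd
    have key : ∀ x ∈ B, x < L ∧ P (t + x) := by
      intro x hx
      have := hBsub hx
      simpa only [mem_filter, Finset.mem_range] using this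
    obtain ⟨haL, a', ha'⟩ := key a ha
    obtain ⟨hbL, b', hb'⟩ := key b hb
    obtain ⟨hcL, c', hc'⟩ := key c hc
    obtain ⟨hdL, d', hd'⟩ := key d hd
    have hLM : L ≤ M := by
      have h1 : q * p ≤ (p - 1) * p := Nat.mul_le_mul_right _ (by omega)
      have h2 : (p - 1) * p = p * p - p := by rw [Nat.sub_mul, one_mul]
      omega
    have hprod : (θ + ι a') * (θ + ι b') = (θ + ι c') * (θ + ι d') := by
      rw [← ha', ← hb', ← hc', ← hd', ← pow_add, ← pow_add]
      congr 1
      omega
    have hlin : θ * ι (a' + b' - (c' + d')) = ι (c' * d' - a' * b') := by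
      rw [map_sub, map_add, map_add, map_sub, map_mul, map_mul]
      linear_combination hprod
    have hsum0 : a' + b' - (c' + d') = 0 := by
      by_contra hne0
      apply hθ ((c' * d' - a' * b') / (a' + b' - (c' + d')))
      rw [map_div₀]
      rw [eq_div_iff (fun h => hne0 (hι (by rw [h, map_zero])))]
      exact hlin
    have hprod0 : c' * d' - a' * b' = 0 := by
      rw [hsum0, map_zero, mul_zero] at hlin
      exact hι (by rw [← hlin, map_zero])
    have hfac : (a' - c') * (a' - d') = 0 := by
      have h1 : b' = c' + d' - a' := by linear_combination hsum0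
      rw [h1] at hprod0
      linear_combination hprod0
    have hback : ∀ x y x' y', x < L → y < L → (g : F) ^ (t + x) = θ + ι x' →
        (g : F) ^ (t + y) = θ + ι y' → x' = y' → x = y := by
      intro x y x' y' hx hy hx' hy' hxy'
      rw [hxy', ← hy'] at hx'
      have h2 : g ^ (t + x) = g ^ (t + y) := Units.ext (by simpa using hx')
      rw [pow_add, pow_add] at h2
      have h3 := mul_left_cancel h2
      exact pow_injOn_Iio_orderOf (by rw [hord]; exact lt_of_lt_of_le hx hLM)
        (by rw [hord]; exact lt_of_lt_of_le hy hLM) h3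
    rcases mul_eq_zero.1 hfac with h | h
    · left
      have hac : a = c := hback a c a' c' haL hcL ha' hc' (sub_eq_zero.1 h)
      exact ⟨hac, by omega⟩
    · right
      have had : a = d := hback a d a' d' haL hdL ha' hd' (sub_eq_zero.1 h)
      exact ⟨had, by omega⟩

/-- Reduction modulo `m`. -/
theorem exists_sidon_zmod {m L n : ℕ} (hm : 2 * L ≤ m) {B : Finset ℕ} (hB : IsSidon B)
    (hcard : B.card = n) (hlt : ∀ b ∈ B, b < L) :
    ∃ A : Finset (ZMod m), A.card = n ∧ IsSidon A := by
  classical
  have hinj : ∀ x y : ℕ, x < m → y < m → (x : ZMod m) = (y : ZMod m) → x = y := by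
    intro x y hx hy hxy
    have := (ZMod.natCast_eq_natCast_iff' _ _ _).1 hxy
    rwa [Nat.mod_eq_of_lt hx, Nat.mod_eq_of_lt hy] at this
  refine ⟨B.image (Nat.cast : ℕ → ZMod m), ?_, ?_⟩
  · rw [card_image_of_injOn, hcard]
    intro x hx y hy hxy
    have := hlt x hx
    have := hlt y hy
    exact hinj x y (by omega) (by omega) hxy
  · intro a ha b hb c hc d hd habcd
    simp only [mem_image] at ha hb hc hd
    obtain ⟨a, ha, rfl⟩ := ha
    obtain ⟨b, hb, rfl⟩ := hb
    obtain ⟨c, hc, rfl⟩ := hc
    obtain ⟨d, hd, rfl⟩ := hd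
    have h1 := hlt a ha
    have h2 := hlt b hb
    have h3 := hlt c hc
    have h4 := hlt d hd
    have h5 : ((a + b : ℕ) : ZMod m) = ((c + d : ℕ) : ZMod m) := by
      push_cast
      exact habcd
    have h6 := hinj _ _ (by omega) (by omega) h5
    rcases hB a ha b hb c hc d hd h6 with ⟨rfl, rfl⟩ | ⟨rfl, rfl⟩
    · exact Or.inl ⟨rfl, rfl⟩
    · exact Or.inr ⟨rfl, rfl⟩

end Pool.Agent.Hhelper4.NS
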