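import Mathlib

/-!
Basic definitions for real functions on the finitary ballean of a group, and the Bergman property.
-/

namespace Pool.Agent.Hhelper4.FinitaryBallean

open Topology Set Pointwise

/-- `f : G → ℝ` is slowly oscillating with respect to the finitary ballean of `G`:
for every finite `F` and every `ε > 0` there is a finite `B` such that
`diam f({x} ∪ F x) < ε` for all `x ∉ B`. -/
def SlowlyOscillating {G : Type*} [Group G] (f : G → ℝ) : Prop :=
  ∀ F : Finset G, ∀ ε > (0 : ℝ), ∃ B : Finset G, ∀ x : G, x ∉ B →
    Metric.diam (f '' ({x} ∪ (fun g => g * x) '' (F : Set G))) < ε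

/-- `f` is constant at infinity: there is `c` such that `G \ f⁻¹(O)` is finite for every
neighbourhood `O` of `c`. -/
def ConstantAtInfinity {G : Type*} (f : G → ℝ) : Prop :=
  ∃ c : ℝ, ∀ O ∈ 𝓝 c, (f ⁻¹' O)ᶜ.Finite

/-- `G` is a Bergman group: there is no strictly increasing sequence `X n` of symmetric subsets
with union `G` and `X n * X n ⊆ X (n + 1)`. -/
def IsBergman (G : Type*) [Group G] : Prop :=
  ¬ ∃ X : ℕ → Set G, StrictMono X ∧ (⋃ n, X n) = univ ∧ (∀ n, (X n)⁻¹ = X n) ∧
    ∀ n, X n * X n ⊆ X (n + 1)

theorem slowlyOscillating_iff {G : Type*} [Group G] (f : G → ℝ) :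
    SlowlyOscillating f ↔ ∀ g : G, ∀ ε > (0 : ℝ), {x | ε ≤ |f (g * x) - f x|}.Finite := by
  classical
  constructor
  · intro h g ε hε
    obtain ⟨B, hB⟩ := h {g} ε hε
    refine B.finite_toSet.subset ?_
    intro x hx
    by_contra hxB
    have h1 := hB x (by simpa using hxB)
    have h2 : dist (f (g * x)) (f x) ≤
        Metric.diam (f '' ({x} ∪ (fun g => g * x) '' ((({g} : Finset G)) : Set G))) := by
      apply Metric.dist_le_diam_of_mem
      · apply Set.Finite.isBounded
        apply Set.Finite.image
        simp
      · exact ⟨g * x, by simp, rfl⟩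
      · exact ⟨x, by simp, rfl⟩
    rw [Real.dist_eq] at h2
    simp only [mem_ofPred_eq] at hx
    linarith
  · intro h F ε hε
    have hfin : (⋃ g ∈ F, {x | ε / 3 ≤ |f (g * x) - f x|}).Finite := by
      apply Set.Finite.biUnion F.finite_toSet
      intro g _
      exact h g (ε / 3) (by positivity)
    refine ⟨hfin.toFinset, ?_⟩
    intro x hx
    have hx' : ∀ g ∈ F, |f (g * x) - f x| < ε / 3 := by
      intro g hg
      by_contra hcon
      push Not at hcon
      apply hx
      rw [Set.Finite.mem_toFinset]
      exact Set.mem_biUnion hg hcon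
    have key : ∀ y ∈ f '' ({x} ∪ (fun g => g * x) '' (F : Set G)), |y - f x| < ε / 3 := by
      rintro y ⟨z, hz, rfl⟩
      rcases hz with hz | ⟨g, hg, rfl⟩
      · rw [mem_singleton_iff] at hz
        subst hz
        simpa using (by positivity : (0:ℝ) < ε / 3)
      · exact hx' g hg
    calc Metric.diam (f '' ({x} ∪ (fun g => g * x) '' (F : Set G))) ≤ 2 * ε / 3 := by
          apply Metric.diam_le_of_forall_dist_le (by positivity)
          intro y hy z hz
          have h1 := key y hy
          have h2 := key z hz
          rw [Real.dist_eq]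
          have : |y - z| ≤ |y - f x| + |z - f x| := by
            have := abs_sub_abs_le_abs_sub (y - f x) (z - f x)
            calc |y - z| = |(y - f x) - (z - f x)| := by ring_nf
              _ ≤ |y - f x| + |z - f x| := abs_sub _ _
          linarith
      _ < ε := by linarith

end Pool.Agent.Hhelper4.FinitaryBallean
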