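import Mathlib
import Pool.Agent.Hhelper4.BoseChowla

/-!
# `T(e,m) = D(e,m)` in the explicit cone `8(m-1-e) ≤ e`
-/

namespace Pool.Agent.Hhelper4.NS

open Finset

/-- the least `q` with `s ≤ q(q+1)/2` -/
theorem exists_tri_min (s : ℕ) : ∃ q : ℕ, s ≤ q * (q + 1) / 2 ∧
    ∀ q', s ≤ q' * (q' + 1) / 2 → q ≤ q' := by
  classical
  have hex : ∃ q : ℕ, s ≤ q * (q + 1) / 2 := by
    refine ⟨s, ?_⟩
    rw [Nat.le_div_iff_mul_le (by norm_num)]
    rcases s with _ | s
    · simp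
    · exact Nat.mul_le_mul le_rfl (by omega)
  exact ⟨Nat.find hex, Nat.find_spec hex, fun q' hq' => Nat.find_min' hex hq'⟩

theorem choose_eq (e : ℕ) : (e + 2).choose 2 = e + 1 + e * (e + 1) / 2 := by
  rw [choose_two (e + 1), tri_succ]
  omega

/-- If `q` is least with `m - 1 - e ≤ q(q+1)/2` and `p ≥ q+1` is a prime with `2qp ≤ m`, then
`T(e,m) = D(e,m)`. -/
theorem main {e m q p : ℕ} (he : 3 ≤ e) (hem : e < m) (hm2 : m - 1 - e < e * (e + 1) / 2)
    (hq : m - 1 - e ≤ q * (q + 1) / 2)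
    (hmin : ∀ q', m - 1 - e ≤ q' * (q' + 1) / 2 → q ≤ q')
    (hp : p.Prime) (hqp : q + 1 ≤ p) (hm : 2 * (q * p) ≤ m) : T e m = D e m := by
  rw [D_two hem (by rw [choose_eq]; omega) hq hmin]
  apply le_antisymm
  · exact T_le (by omega) hem hmin
  · rcases Nat.eq_zero_or_pos q with hq0 | hq0
    · subst hq0
      refine le_T_of_sidon (A := {0}) ?_ (by simp) (by omega) hem hq
      intro a ha b hb c hc d hd _
      simp only [mem_singleton] at ha hb hc hd
      subst ha hb hc hd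
      simp
    · haveI : Fact p.Prime := ⟨hp⟩
      obtain ⟨B, hB, hlt, hBs⟩ := exists_sidon_nat p q hq0 hqp
      obtain ⟨A, hA, hAs⟩ := exists_sidon_zmod hm hBs hB hlt
      exact le_T_of_sidon hAs hA (by omega) hem hq

theorem T_eq_D_cone {e m : ℕ} (he : 3 ≤ e) (hem : e < m) (h8 : 8 * (m - 1 - e) ≤ e) :
    T e m = D e m := by
  obtain ⟨q, hq, hmin⟩ := exists_tri_min (m - 1 - e)
  rcases Nat.eq_zero_or_pos q with hq0 | hq0
  · subst hq0
    refine main he hem ?_ hq hmin Nat.prime_two (by omega) (by omega)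
    have h1 : e ≤ e * (e + 1) / 2 := by
      rw [Nat.le_div_iff_mul_le (by norm_num)]
      exact Nat.mul_le_mul le_rfl (by omega)
    have : 0 * (0 + 1) / 2 = 0 := by norm_num
    omega
  · obtain ⟨p, hp, hqp, hp2⟩ := Nat.exists_prime_lt_and_le_two_mul q (by omega)
    have h1 : e ≤ e * (e + 1) / 2 := by
      rw [Nat.le_div_iff_mul_le (by norm_num)]
      exact Nat.mul_le_mul le_rfl (by omega)
    refine main he hem (by omega) hq hmin hp hqp ?_
    -- q minimal
    obtain ⟨k, rfl⟩ : ∃ k, q = k + 1 := ⟨q - 1, by omega⟩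
    have h2 : k * (k + 1) / 2 < m - 1 - e := by
      by_contra hcon
      have := hmin k (by omega)
      omega
    have h3 : k * (k + 1) = 2 * (k * (k + 1) / 2) := by
      rw [Nat.mul_div_cancel' (Nat.even_mul_succ_self k).two_dvd]
    have h4 : (k + 1) * p ≤ (k + 1) * (2 * (k + 1)) := Nat.mul_le_mul le_rfl hp2
    have h5 : (k + 1) * (2 * (k + 1)) = 2 * (k * (k + 1)) + 2 * (k + 1) := by ring
    -- m ≥ 9 (k(k+1)/2 + 1) + 1 ≥ 4 (k+1)^2
    have h6 : 8 * (k + 1) ≤ k * (k + 1) + 20 := by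
      have : (0:ℤ) ≤ ((k : ℤ) - 3) * ((k : ℤ) - 4) := by
        rcases le_or_gt (k : ℤ) 3 with h | h
        · exact mul_nonneg_of_nonpos_of_nonpos (by linarith) (by linarith)
        · exact mul_nonneg (by linarith) (by linarith)
      have h7 : (8 : ℤ) * (k + 1) ≤ k * (k + 1) + 20 := by nlinarith
      exact_mod_cast h7
    omega

end Pool.Agent.Hhelper4.NS
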