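import Mathlib
import Pool.Agent.Hhelper4.NSTwo

/-!
# The construction with sums of up to `k` atoms
-/

namespace Pool.Agent.Hhelper4.NS

open Finset

section general

variable {m : ℕ} [NeZero m] (A : Finset (ZMod m)) (k : ℕ)

/-- total weight of a multiset -/
def mw (l : Multiset (ZMod m)) : ℕ := (2 * k + 2) * m * l.card + (l.map ZMod.val).sum

/-- `l` represents `x` by elements of `A` -/
def Reps (l : Multiset (ZMod m)) (x : ZMod m) : Prop := (∀ a ∈ l, a ∈ A) ∧ l.sum = x

theorem mw_add (l l' : Multiset (ZMod m)) : mw k (l + l') = mw k l + mw k l' := by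
  unfold mw
  rw [Multiset.card_add, Multiset.map_add, Multiset.sum_add]
  ring

theorem valsum_le (l : Multiset (ZMod m)) : (l.map ZMod.val).sum + l.card ≤ m * l.card := by
  induction l using Multiset.induction_on with
  | empty => simp
  | cons a l ih =>
    rw [Multiset.map_cons, Multiset.sum_cons, Multiset.card_cons, Nat.mul_succ]
    have := a.val_lt
    omega

theorem valsum_cast (l : Multiset (ZMod m)) : (((l.map ZMod.val).sum : ℕ) : ZMod m) = l.sum := by
  induction l using Multiset.induction_on with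
  | empty => simp
  | cons a l ih =>
    rw [Multiset.map_cons, Multiset.sum_cons, Multiset.sum_cons, Nat.cast_add, ih]
    simp

theorem mw_cast (l : Multiset (ZMod m)) : ((mw k l : ℕ) : ZMod m) = l.sum := by
  unfold mw
  rw [Nat.cast_add, valsum_cast]
  simp

/-- Every element is a sum of at most `k` elements of `A`. -/
def Covers : Prop := ∀ x : ZMod m, ∃ l, Reps A l x ∧ l.card ≤ k

variable {A k}

theorem exists_min (hc : Covers A k) (x : ZMod m) :
    ∃ l, Reps A l x ∧ ∀ l', Reps A l' x → mw k l ≤ mw k l' := by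
  classical
  have hne : ∃ v, ∃ l, Reps A l x ∧ mw k l = v := by
    obtain ⟨l, hl, -⟩ := hc x
    exact ⟨_, l, hl, rfl⟩
  obtain ⟨l, hl, hlv⟩ := Nat.find_spec hne
  exact ⟨l, hl, fun l' hl' => by rw [hlv]; exact Nat.find_min' hne ⟨l', hl', rfl⟩⟩

/-- a representation of least weight -/
noncomputable def best (hc : Covers A k) (x : ZMod m) : Multiset (ZMod m) := (exists_min hc x).choose

theorem best_reps (hc : Covers A k) (x : ZMod m) : Reps A (best hc x) x :=
  (exists_min hc x).choose_spec.1

theorem best_min (hc : Covers A k) (x : ZMod m) {l : Multiset (ZMod m)} (hl : Reps A l x) :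
    mw k (best hc x) ≤ mw k l := (exists_min hc x).choose_spec.2 l hl

/-- number of atoms -/
noncomputable def co (hc : Covers A k) (x : ZMod m) : ℕ := (best hc x).card

/-- least weight -/
noncomputable def w0 (hc : Covers A k) (x : ZMod m) : ℕ := mw k (best hc x)

theorem mw_bounds (l : Multiset (ZMod m)) :
    (2 * k + 2) * m * l.card ≤ mw k l ∧ mw k l + l.card ≤ (2 * k + 2) * m * l.card + m * l.card := by
  unfold mw
  have := valsum_le l
  constructor
  · omega
  · omega

/-- if the weights compare, so do the cardinalities, for short multisets -/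
theorem card_le_of_mw {l l' : Multiset (ZMod m)} (h : mw k l ≤ mw k l') (hl' : l'.card ≤ 2 * k + 1) :
    l.card ≤ l'.card := by
  by_contra hcon
  push Not at hcon
  have h1 := (mw_bounds (k := k) l).1
  have h2 := (mw_bounds (k := k) l').2
  have hm := NeZero.pos m
  have h3 : (2 * k + 2) * m * (l'.card + 1) ≤ (2 * k + 2) * m * l.card := Nat.mul_le_mul le_rfl hcon
  have h4 : m * l'.card ≤ m * (2 * k + 1) := Nat.mul_le_mul le_rfl hl'
  have h5 : (2 * k + 2) * m * (l'.card + 1) = (2 * k + 2) * m * l'.card + (m * (2 * k + 1) + m) := by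
    ring
  omega

theorem co_le_card (hc : Covers A k) {x : ZMod m} {l : Multiset (ZMod m)} (hl : Reps A l x)
    (hlk : l.card ≤ 2 * k + 1) : co hc x ≤ l.card :=
  card_le_of_mw (best_min hc x hl) hlk

theorem co_le (hc : Covers A k) (x : ZMod m) : co hc x ≤ k := by
  obtain ⟨l, hl, hlk⟩ := hc x
  exact (co_le_card hc hl (by omega)).trans hlk

theorem best_zero (hc : Covers A k) : best hc (0 : ZMod m) = 0 := by
  have h1 : Reps A (0 : Multiset (ZMod m)) 0 := ⟨by simp, by simp⟩
  have h2 := co_le_card hc h1 (by simp)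
  rw [← Multiset.card_eq_zero]
  unfold co at h2
  simpa using h2

theorem w0_zero (hc : Covers A k) : w0 hc (0 : ZMod m) = 0 := by
  unfold w0
  rw [best_zero]
  simp [mw]

theorem co_pos (hc : Covers A k) {x : ZMod m} (hx : x ≠ 0) : 1 ≤ co hc x := by
  by_contra h
  have h1 : (best hc x).card = 0 := by
    unfold co at h; omega
  rw [Multiset.card_eq_zero] at h1
  have := (best_reps hc x).2
  rw [h1] at this
  exact hx (by simpa using this.symm)

theorem w0_cast (hc : Covers A k) (x : ZMod m) : ((w0 hc x : ℕ) : ZMod m) = x := by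
  unfold w0
  rw [mw_cast, (best_reps hc x).2]

theorem reps_add {l l' : Multiset (ZMod m)} {x y : ZMod m} (h : Reps A l x) (h' : Reps A l' y) :
    Reps A (l + l') (x + y) := by
  refine ⟨?_, ?_⟩
  · intro a ha
    rcases Multiset.mem_add.1 ha with ha | ha
    · exact h.1 a ha
    · exact h'.1 a ha
  · rw [Multiset.sum_add, h.2, h'.2]

theorem w0_add (hc : Covers A k) (x y : ZMod m) : w0 hc (x + y) ≤ w0 hc x + w0 hc y := by
  unfold w0
  rw [← mw_add]
  exact best_min hc _ (reps_add (best_reps hc x) (best_reps hc y))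

theorem co_add_of_eq (hc : Covers A k) {x y : ZMod m} (h : w0 hc (x + y) = w0 hc x + w0 hc y) :
    co hc (x + y) = co hc x + co hc y := by
  unfold w0 at h
  rw [← mw_add] at h
  have h1 := co_le hc x
  have h2 := co_le hc y
  have h3 := co_le hc (x + y)
  unfold co at *
  rw [← Multiset.card_add]
  apply le_antisymm
  · exact card_le_of_mw h.le (by rw [Multiset.card_add]; omega)
  · exact card_le_of_mw h.ge (by omega)

theorem w0_bounds (hc : Covers A k) (x : ZMod m) :
    (2 * k + 2) * m * co hc x ≤ w0 hc x ∧ w0 hc x ≤ (2 * k + 2) * m * co hc x + m * co hc x := by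
  have := mw_bounds (k := k) (best hc x)
  unfold w0 co
  constructor
  · exact this.1
  · omega

theorem w0_le (hc : Covers A k) (x : ZMod m) : w0 hc x ≤ (2 * k + 2) * m * k + m * k := by
  have h1 := (w0_bounds hc x).2
  have h2 := co_le hc x
  have h3 : (2 * k + 2) * m * co hc x ≤ (2 * k + 2) * m * k := Nat.mul_le_mul le_rfl h2
  have h4 : m * co hc x ≤ m * k := Nat.mul_le_mul le_rfl h2
  omega

open Classical in
/-- the weight function with isolated atoms `I` -/
noncomputable def w1 (hc : Covers A k) (I : Finset (ZMod m)) (x : ZMod m) : ℕ :=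
  if x ∈ I then ((2 * k + 2) * k - 1) * m + x.val else w0 hc x

theorem w1_mem (hc : Covers A k) {I : Finset (ZMod m)} {x : ZMod m} (hx : x ∈ I) :
    w1 hc I x = ((2 * k + 2) * k - 1) * m + x.val := by simp [w1, hx]

theorem w1_not (hc : Covers A k) {I : Finset (ZMod m)} {x : ZMod m} (hx : x ∉ I) :
    w1 hc I x = w0 hc x := by simp [w1, hx]

theorem w1_ge (hc : Covers A k) (hk : 1 ≤ k) {I : Finset (ZMod m)} {x : ZMod m} (hx : x ≠ 0) :
    (2 * k + 1) * m ≤ w1 hc I x := by
  by_cases hI : x ∈ I
  · rw [w1_mem hc hI]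
    have : (2 * k + 1) ≤ (2 * k + 2) * k - 1 := by
      have : (2 * k + 2) * 1 ≤ (2 * k + 2) * k := Nat.mul_le_mul le_rfl hk
      omega
    have := Nat.mul_le_mul_right m this
    omega
  · rw [w1_not hc hI]
    have h1 := (w0_bounds hc x).1
    have h2 := co_pos hc hx
    have h3 : (2 * k + 2) * m * 1 ≤ (2 * k + 2) * m * co hc x := Nat.mul_le_mul le_rfl h2
    have h4 : (2 * k + 1) * m ≤ (2 * k + 2) * m := Nat.mul_le_mul_right _ (by omega)
    omega

theorem aux_mul (hk : 1 ≤ k) : ((2 * k + 2) * k - 1) * m + m = (2 * k + 2) * m * k := by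
  have h3 : 1 ≤ (2 * k + 2) * k := Nat.mul_pos (by omega) hk
  have : (2 * k + 2) * k = ((2 * k + 2) * k - 1) + 1 := by omega
  have h2 : (2 * k + 2) * k * m = ((2 * k + 2) * k - 1) * m + m := by
    conv_lhs => rw [this]
    ring
  rw [← h2]
  ring

theorem w1_le (hc : Covers A k) (hk : 1 ≤ k) (I : Finset (ZMod m)) (x : ZMod m) :
    w1 hc I x ≤ (2 * k + 2) * m * k + m * k := by
  by_cases hI : x ∈ I
  · rw [w1_mem hc hI]
    have h1 := x.val_lt
    have h2 := aux_mul (m := m) hk
    omega
  · rw [w1_not hc hI]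
    exact w0_le hc x

theorem w1_add_cases (hc : Covers A k) (hk : 1 ≤ k) {I : Finset (ZMod m)}
    (hI : ∀ x ∈ I, co hc x = k) {x y : ZMod m} (hx : x ≠ 0) (hy : y ≠ 0) :
    w1 hc I (x + y) < w1 hc I x + w1 hc I y ∨
      (x ∉ I ∧ y ∉ I ∧ x + y ∉ I ∧ w1 hc I (x + y) ≤ w1 hc I x + w1 hc I y) := by
  have hm := NeZero.pos m
  have hle := w1_le hc hk I (x + y)
  have h2 := aux_mul (m := m) hk
  have hkm : 1 * m ≤ k * m := Nat.mul_le_mul_right _ hk
  have h5 : m * k = k * m := Nat.mul_comm _ _
  have h6 : (2 * k + 1) * m = k * m + k * m + m := by ring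
  by_cases hxI : x ∈ I
  · left
    have h3 := w1_ge hc hk (I := I) hy
    rw [w1_mem hc hxI]
    omega
  by_cases hyI : y ∈ I
  · left
    have h3 := w1_ge hc hk (I := I) hx
    rw [w1_mem hc hyI]
    omega
  by_cases hxyI : x + y ∈ I
  · left
    rw [w1_mem hc hxyI, w1_not hc hxI, w1_not hc hyI]
    have h3 := w0_add hc x y
    have h4 := (w0_bounds hc (x + y)).1
    rw [hI _ hxyI] at h4
    have := (x + y).val_lt
    omega
  · right
    refine ⟨hxI, hyI, hxyI, ?_⟩
    rw [w1_not hc hxI, w1_not hc hyI, w1_not hc hxyI]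
    exact w0_add hc x y

theorem zero_notMem (hc : Covers A k) (hk : 1 ≤ k) {I : Finset (ZMod m)}
    (hI : ∀ x ∈ I, co hc x = k) : (0 : ZMod m) ∉ I := by
  intro h0
  have := hI 0 h0
  unfold co at this
  rw [best_zero] at this
  simp at this
  omega

theorem w1_apery (hc : Covers A k) (hk : 1 ≤ k) {I : Finset (ZMod m)}
    (hI : ∀ x ∈ I, co hc x = k) : IsApery m (w1 hc I) := by
  have h0 : w1 hc I 0 = 0 := by
    rw [w1_not hc (zero_notMem hc hk hI), w0_zero]
  refine ⟨h0, ?_, ?_, ?_⟩
  · intro x
    by_cases hx : x ∈ I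
    · rw [w1_mem hc hx]; simp
    · rw [w1_not hc hx, w0_cast]
  · intro x y
    by_cases hx : x = 0
    · rw [hx, zero_add, h0, zero_add]
    by_cases hy : y = 0
    · rw [hy, add_zero, h0, add_zero]
    rcases w1_add_cases hc hk hI hx hy with h | h
    · exact h.le
    · exact h.2.2.2
  · intro x hx
    have h1 := w1_ge hc hk (I := I) hx
    have hm := NeZero.pos m
    have h2 : (2 * 1 + 1) * m ≤ (2 * k + 1) * m := Nat.mul_le_mul_right _ (by omega)
    omega

open Classical in
/-- elements that are sums of at most `k - 1` atoms -/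
noncomputable def low (hc : Covers A k) : Finset (ZMod m) :=
  univ.filter (fun x => co hc x + 1 ≤ k)

theorem mem_low (hc : Covers A k) {x : ZMod m} : x ∈ low hc ↔ co hc x + 1 ≤ k := by
  simp [low]

theorem nonMax_w1 (hc : Covers A k) (hk : 1 ≤ k) {I : Finset (ZMod m)}
    (hI : ∀ x ∈ I, co hc x = k) : insert 0 (nonMax (w1 hc I)) ⊆ low hc := by
  intro x hx
  rw [mem_low]
  rw [mem_insert] at hx
  rcases hx with rfl | hx
  · unfold co
    rw [best_zero]
    simpa using hk
  obtain ⟨hx0, y, hy, hxy⟩ := mem_nonMax.1 hx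
  rcases w1_add_cases hc hk hI hx0 hy with h | ⟨h1, h2, h3, h4⟩
  · omega
  · rw [w1_not hc h1, w1_not hc h2, w1_not hc h3] at hxy
    have h5 := co_add_of_eq hc hxy
    have h6 := co_le hc (x + y)
    have h7 := co_pos hc hy
    omega

theorem co_of_mem (hc : Covers A k) {x : ZMod m} (hx : x ∈ A) : co hc x ≤ 1 := by
  have h : Reps A ({x} : Multiset (ZMod m)) x := ⟨by simpa using hx, by simp⟩
  have := co_le_card hc h (by simp)
  simpa using this

theorem nonAtom_w1 (hc : Covers A k) (hk : 1 ≤ k) (hA0 : (0 : ZMod m) ∉ A) {I : Finset (ZMod m)}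
    (hI : ∀ x ∈ I, co hc x = k) {x : ZMod m} :
    x ∈ nonAtom (w1 hc I) ↔ x ≠ 0 ∧ x ∉ A ∧ x ∉ I := by
  constructor
  · intro hx
    obtain ⟨hx0, y, z, hy, hz, hyz, hw⟩ := mem_nonAtom.1 hx
    rcases w1_add_cases hc hk hI hy hz with h | ⟨h1, h2, h3, h4⟩
    · rw [hyz] at h; omega
    · rw [← hyz, w1_not hc h1, w1_not hc h2, w1_not hc h3] at hw
      have h5 := co_add_of_eq hc hw.symm
      have h6 := co_pos hc hy
      have h7 := co_pos hc hz
      rw [hyz] at h3 h5
      refine ⟨hx0, ?_, h3⟩
      intro hxA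
      have := co_of_mem hc hxA
      omega
  · rintro ⟨hx0, hxA, hxI⟩
    have hbr := best_reps hc x
    have hcp := co_pos hc hx0
    obtain ⟨a, ha⟩ : ∃ a, a ∈ best hc x := by
      apply Multiset.exists_mem_of_ne_zero
      intro h0
      unfold co at hcp
      rw [h0] at hcp
      simp at hcp
    obtain ⟨l, hl⟩ := Multiset.exists_cons_of_mem ha
    have haA : a ∈ A := hbr.1 a ha
    have hlsum : a + l.sum = x := by
      rw [← Multiset.sum_cons, ← hl]; exact hbr.2
    have ha0 : a ≠ 0 := fun h => hA0 (h ▸ haA)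
    have hz0 : l.sum ≠ 0 := by
      intro h0
      rw [h0, add_zero] at hlsum
      exact hxA (hlsum ▸ haA)
    have hla : Reps A ({a} : Multiset (ZMod m)) a := ⟨by simpa using haA, by simp⟩
    have hlr : Reps A l l.sum := by
      refine ⟨fun b hb => hbr.1 b ?_, rfl⟩
      rw [hl]
      exact Multiset.mem_cons_of_mem hb
    have hw1 : w0 hc a + w0 hc l.sum ≤ w0 hc x := by
      have e1 : w0 hc a ≤ mw k ({a} : Multiset (ZMod m)) := best_min hc a hla
      have e2 : w0 hc l.sum ≤ mw k l := best_min hc _ hlr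
      have e3 : w0 hc x = mw k ({a} : Multiset (ZMod m)) + mw k l := by
        unfold w0
        rw [← mw_add, hl]
        rfl
      omega
    have hw2 : w0 hc (a + l.sum) = w0 hc a + w0 hc l.sum := by
      apply le_antisymm (w0_add hc _ _)
      rw [hlsum]
      exact hw1
    have hco := co_add_of_eq hc hw2
    rw [hlsum] at hco hw2
    have hck := co_le hc x
    have h6 := co_pos hc ha0
    have h7 := co_pos hc hz0
    have haI : a ∉ I := by
      intro h
      have := hI a h
      omega
    have hlI : l.sum ∉ I := by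
      intro h
      have := hI _ h
      omega
    refine mem_nonAtom.2 ⟨hx0, a, l.sum, ha0, hz0, hlsum, ?_⟩
    rw [w1_not hc haI, w1_not hc hlI, w1_not hc hxI, hw2]

theorem card_low_le (hc : Covers A k) : (low hc).card ≤ (A.card + 1) ^ (k - 1) := by
  classical
  -- iterated sumsets
  have key : ∀ j : ℕ, ∃ S : Finset (ZMod m), S.card ≤ (A.card + 1) ^ j ∧
      ∀ l : Multiset (ZMod m), (∀ a ∈ l, a ∈ A) → l.card ≤ j → l.sum ∈ S := by
    intro j
    induction j with
    | zero =>
      refine ⟨{0}, by simp, ?_⟩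
      intro l _ hl
      have : l = 0 := by
        rw [← Multiset.card_eq_zero]; omega
      rw [this]
      simp
    | succ j ih =>
      obtain ⟨S, hS, hS2⟩ := ih
      refine ⟨(S ×ˢ insert 0 A).image (fun p => p.1 + p.2), ?_, ?_⟩
      · refine card_image_le.trans ?_
        rw [card_product, pow_succ]
        exact Nat.mul_le_mul hS (card_insert_le _ _)
      · intro l hl hlc
        rw [mem_image]
        rcases Multiset.empty_or_exists_mem l with rfl | ⟨a, ha⟩
        · refine ⟨(0, 0), ?_, by simp⟩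
          rw [mem_product]
          exact ⟨by simpa using hS2 0 (by simp) (by simp), mem_insert_self _ _⟩
        · obtain ⟨l', rfl⟩ := Multiset.exists_cons_of_mem ha
          refine ⟨(l'.sum, a), ?_, ?_⟩
          · rw [mem_product]
            refine ⟨hS2 l' (fun b hb => hl b (Multiset.mem_cons_of_mem hb)) ?_, ?_⟩
            · rw [Multiset.card_cons] at hlc
              omega
            · exact mem_insert_of_mem (hl a ha)
          · rw [Multiset.sum_cons]
            exact add_comm _ _
  obtain ⟨S, hS, hS2⟩ := key (k - 1)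
  refine le_trans (card_le_card ?_) hS
  intro x hx
  rw [mem_low] at hx
  have hbr := best_reps hc x
  rw [← hbr.2]
  apply hS2 _ hbr.1
  unfold co at hx
  omega

/-- The general construction. -/
theorem general_construction (hc : Covers A k) (hk2 : 2 ≤ k) (hA0 : (0 : ZMod m) ∉ A) {e : ℕ}
    (hm : 2 ≤ m) (h1 : A.card ≤ e) (h2 : e + (A.card + 1) ^ (k - 1) ≤ m) :
    m ≤ T e m + (A.card + 1) ^ (k - 1) := by
  classical
  have hk : 1 ≤ k := by omega
  have hlow := card_low_le hc
  -- elements outside `low`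
  have hcompl : ((low hc)ᶜ).card = m - (low hc).card := by
    rw [card_compl, ZMod.card]
  have hle : e - A.card ≤ ((low hc)ᶜ).card := by omega
  obtain ⟨I, hIsub, hIcard⟩ := exists_subset_card_eq hle
  have hI : ∀ x ∈ I, co hc x = k := by
    intro x hx
    have h3 := hIsub hx
    rw [mem_compl, mem_low] at h3
    have := co_le hc x
    omega
  have hAp := w1_apery hc hk hI
  have hdis : Disjoint A I := by
    rw [Finset.disjoint_left]
    intro x hxA hxI
    have e1 := co_of_mem hc hxA
    have e2 := hI x hxI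
    omega
  have h0I := zero_notMem hc hk hI
  have a1 := type_add hAp hm
  have a2 := edim_add hAp
  have h0N : (0 : ZMod m) ∉ nonMax (w1 hc I) := fun h0 => (mem_nonMax.1 h0).1 rfl
  have a3 : (nonMax (w1 hc I)).card + 1 ≤ (low hc).card := by
    rw [← card_insert_of_notMem h0N]
    exact card_le_card (nonMax_w1 hc hk hI)
  have a4 : (nonAtom (w1 hc I)).card + (e + 1) = m := by
    have h5 : (univ : Finset (ZMod m)) = insert 0 (A ∪ I) ∪ nonAtom (w1 hc I) := by
      ext x
      simp only [mem_univ, mem_union, mem_insert, true_iff]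
      rw [nonAtom_w1 hc hk hA0 hI]
      by_cases e1 : x = 0
      · exact Or.inl (Or.inl e1)
      by_cases e2 : x ∈ A
      · exact Or.inl (Or.inr (Or.inl e2))
      by_cases e3 : x ∈ I
      · exact Or.inl (Or.inr (Or.inr e3))
      · exact Or.inr ⟨e1, e2, e3⟩
    have h6 : (univ : Finset (ZMod m)).card = m := by rw [card_univ, ZMod.card]
    rw [h5, card_union_of_disjoint, card_insert_of_notMem, card_union_of_disjoint hdis] at h6
    · omega
    · rw [mem_union]
      rintro (h | h)
      · exact hA0 h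
      · exact h0I h
    · rw [Finset.disjoint_left]
      intro x hx1 hx2
      rw [nonAtom_w1 hc hk hA0 hI] at hx2
      rw [mem_insert, mem_union] at hx1
      rcases hx1 with h | h | h
      · exact hx2.1 h
      · exact hx2.2.1 h
      · exact hx2.2.2 h
  have a5 : m - (A.card + 1) ^ (k - 1) ≤ T e m := by
    apply le_T hm (sg (w1 hc I) hAp) (sg_numerical hAp) _ (sg_mult hAp)
    · omega
    · omega
  omega

end general

end Pool.Agent.Hhelper4.NS
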