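import Mathlib
import Pool.Agent.Hhelper4.NSGeneral
import Pool.Agent.Hhelper4.NSCone

/-!
# Digits, and numerical estimates for the bound `D`
-/

namespace Pool.Agent.Hhelper4.NS

open Finset

/-- the multiples `j b^i` of powers of `b` form a small set all of whose `k`-fold sums cover
`ZMod m` when `m ≤ b^k`. -/
theorem exists_cover {m : ℕ} [NeZero m] {b k : ℕ} (hb : 1 ≤ b) (hmb : m ≤ b ^ k) :
    ∃ A : Finset (ZMod m), (0 : ZMod m) ∉ A ∧ A.card ≤ k * (b - 1) ∧ Covers A k := by
  classical
  set A : Finset (ZMod m) := ((Finset.range k ×ˢ Finset.Ico 1 b).image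
    (fun p : ℕ × ℕ => ((p.2 * b ^ p.1 : ℕ) : ZMod m))).erase 0 with hA
  refine ⟨A, notMem_erase _ _, ?_, ?_⟩
  · refine (card_erase_le).trans (card_image_le.trans ?_)
    rw [card_product, card_range, Nat.card_Ico]
  · have key : ∀ j : ℕ, j ≤ k → ∀ n : ℕ, n < b ^ j →
        ∃ l : Multiset (ZMod m), (∀ a ∈ l, a ∈ A) ∧ l.card ≤ j ∧ l.sum = (n : ZMod m) := by
      intro j
      induction j with
      | zero =>
        intro _ n hn
        refine ⟨0, by simp, by simp, ?_⟩
        have : n = 0 := by
          rw [pow_zero] at hn; omega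
        simp [this]
      | succ j ih =>
        intro hj n hn
        have hbj : 0 < b ^ j := Nat.pos_of_ne_zero (by positivity)
        obtain ⟨l, hl1, hl2, hl3⟩ := ih (by omega) (n % b ^ j) (Nat.mod_lt _ hbj)
        have hd : n / b ^ j < b := by
          rw [Nat.div_lt_iff_lt_mul hbj, Nat.mul_comm, ← pow_succ]
          exact hn
        have hn2 : (n : ZMod m) = ((n / b ^ j * b ^ j : ℕ) : ZMod m) + ((n % b ^ j : ℕ) : ZMod m) := by
          rw [← Nat.cast_add]
          congr 1
          rw [Nat.mul_comm]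
          exact (Nat.div_add_mod n (b ^ j)).symm
        by_cases h0 : ((n / b ^ j * b ^ j : ℕ) : ZMod m) = 0
        · refine ⟨l, hl1, by omega, ?_⟩
          rw [hl3, hn2, h0, zero_add]
        · refine ⟨((n / b ^ j * b ^ j : ℕ) : ZMod m) ::ₘ l, ?_, ?_, ?_⟩
          · intro a ha
            rw [Multiset.mem_cons] at ha
            rcases ha with rfl | ha
            · rw [hA, mem_erase]
              refine ⟨h0, mem_image.2 ⟨(j, n / b ^ j), ?_, rfl⟩⟩
              rw [mem_product, Finset.mem_range, Finset.mem_Ico]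
              refine ⟨by simp only; omega, ?_, hd⟩
              simp only
              by_contra hlt
              have : n / b ^ j = 0 := Nat.lt_one_iff.1 (not_le.1 hlt)
              rw [this] at h0
              simp at h0
            · exact hl1 a ha
          · rw [Multiset.card_cons]; omega
          · rw [Multiset.sum_cons, hl3, ← hn2]
    intro x
    obtain ⟨l, hl1, hl2, hl3⟩ := key k le_rfl x.val (lt_of_lt_of_le x.val_lt hmb)
    exact ⟨l, ⟨hl1, by rw [hl3]; simp⟩, hl2⟩

theorem lowerMac_step (d n : ℕ) (hn : n ≠ 0) :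
    ∃ k : ℕ, 1 ≤ k ∧ k.choose (d + 1) ≤ n ∧ n < (k + 1).choose (d + 1) ∧
      lowerMac (d + 1) n = (k - 1).choose (d + 1) + lowerMac d (n - k.choose (d + 1)) := by
  set k := Nat.findGreatest (fun k => k.choose (d + 1) ≤ n) (n + d + 1) with hk
  have h0 : (fun k => k.choose (d + 1) ≤ n) (d + 1) := by
    change (d + 1).choose (d + 1) ≤ n
    rw [Nat.choose_self]; omega
  have h1 : k.choose (d + 1) ≤ n := by
    have := Nat.findGreatest_spec (P := fun k => k.choose (d + 1) ≤ n) (n := n + d + 1)
      (m := d + 1) (by omega) h0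
    exact this
  have h2 : d + 1 ≤ k := Nat.le_findGreatest (by omega) h0
  have h3 : n < (k + 1).choose (d + 1) := by
    rcases Nat.lt_or_ge k (n + d + 1) with hlt | hge
    · by_contra hcon
      push Not at hcon
      have := Nat.le_findGreatest (P := fun k => k.choose (d + 1) ≤ n) (n := n + d + 1)
        (m := k + 1) (by omega) hcon
      omega
    · -- choose (k+1) (d+1) ≥ k + 1 - d > n
      have h4 : (n + d + 2).choose (d + 1) ≤ (k + 1).choose (d + 1) :=
        Nat.choose_le_choose _ (by omega)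
      have h5 : ∀ d n : ℕ, n + 1 ≤ (n + d + 2).choose (d + 1) := by
        intro d
        induction d with
        | zero => intro n; simp
        | succ d ih =>
          intro n
          have := ih n
          have h6 : (n + (d + 1) + 2).choose (d + 1 + 1) =
            (n + d + 2).choose (d + 1) + (n + d + 2).choose (d + 1 + 1) :=
            Nat.choose_succ_succ' (n + d + 2) (d + 1)
          omega
      have := h5 d n
      omega
  refine ⟨k, by omega, h1, h3, ?_⟩
  conv_lhs => unfold lowerMac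
  rw [if_neg hn]

theorem lowerMac_le (d n : ℕ) : lowerMac d n ≤ n := by
  induction d generalizing n with
  | zero => simp [lowerMac]
  | succ d ih =>
    by_cases hn : n = 0
    · subst hn; rw [lowerMac_zero]
    · obtain ⟨k, hk1, hk2, hk3, hk4⟩ := lowerMac_step d n hn
      rw [hk4]
      have h1 := ih (n - k.choose (d + 1))
      have h2 : (k - 1).choose (d + 1) ≤ k.choose (d + 1) := Nat.choose_le_choose _ (by omega)
      omega

/-- the loss in `n ↦ n_{⟨d+1⟩}` -/
theorem lowerMac_loss (d n : ℕ) (hn : n ≠ 0) :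
    ∃ k : ℕ, 1 ≤ k ∧ n < (k + 1).choose (d + 1) ∧ lowerMac (d + 1) n + (k - 1).choose d ≤ n := by
  obtain ⟨k, hk1, hk2, hk3, hk4⟩ := lowerMac_step d n hn
  refine ⟨k, hk1, hk3, ?_⟩
  rw [hk4]
  have h1 := lowerMac_le d (n - k.choose (d + 1))
  obtain ⟨k', rfl⟩ : ∃ k', k = k' + 1 := ⟨k - 1, by omega⟩
  rw [Nat.choose_succ_succ'] at *
  simp only [Nat.add_sub_cancel] at *
  omega

/-- `3 C(e+j,j) ≤ 2 e^j` for `e ≥ 10`, `j ≥ 2`. -/
theorem choose_le_pow {e : ℕ} (he : 10 ≤ e) (j : ℕ) :
    3 * (e + (j + 2)).choose (j + 2) ≤ 2 * e ^ (j + 2) := by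
  induction j with
  | zero =>
    have h1 : (e + 2).choose 2 = e + 1 + e * (e + 1) / 2 := choose_eq e
    have h2 : e * (e + 1) = 2 * (e * (e + 1) / 2) := by
      rw [Nat.mul_div_cancel' (Nat.even_mul_succ_self e).two_dvd]
    have h3 : e * (e + 1) = e * e + e := by ring
    have h4 : 10 * e ≤ e * e := Nat.mul_le_mul_right _ he
    have h5 : 2 * e ^ (0 + 2) = 2 * (e * e) := by ring
    rw [h5]
    change 3 * (e + 2).choose 2 ≤ _
    rw [h1]
    omega
  | succ j ih =>
    have h1 := Nat.add_one_mul_choose_eq (e + (j + 2)) (j + 2)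
    -- (e+j+3) * C(e+j+2, j+2) = C(e+j+3, j+3) * (j+3)
    have h2 : (e + (j + 2) + 1) ≤ e * (j + 2 + 1) := by nlinarith
    have h3 : (e + (j + 1 + 2)).choose (j + 1 + 2) * (j + 2 + 1) ≤
        e * (j + 2 + 1) * (e + (j + 2)).choose (j + 2) := by
      have h4 : (e + (j + 1 + 2)).choose (j + 1 + 2) * (j + 2 + 1) =
          (e + (j + 2) + 1) * (e + (j + 2)).choose (j + 2) := by
        rw [h1]
        rfl
      rw [h4]
      exact Nat.mul_le_mul_right _ h2
    have h5 : (e + (j + 1 + 2)).choose (j + 1 + 2) ≤ e * (e + (j + 2)).choose (j + 2) := by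
      have h6 : e * (j + 2 + 1) * (e + (j + 2)).choose (j + 2) =
          e * (e + (j + 2)).choose (j + 2) * (j + 2 + 1) := by ring
      rw [h6] at h3
      exact Nat.le_of_mul_le_mul_right h3 (by omega)
    calc 3 * (e + (j + 1 + 2)).choose (j + 1 + 2) ≤ 3 * (e * (e + (j + 2)).choose (j + 2)) :=
          Nat.mul_le_mul le_rfl h5
      _ = e * (3 * (e + (j + 2)).choose (j + 2)) := by ring
      _ ≤ e * (2 * e ^ (j + 2)) := Nat.mul_le_mul le_rfl ih
      _ = 2 * e ^ (j + 1 + 2) := by ring

/-- `e^k < k! C(e+k,k)` -/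
theorem pow_lt_choose {e : ℕ} (k : ℕ) (hk : 1 ≤ k) :
    e ^ k < k.factorial * (e + k).choose k := by
  have h1 : (e + k + 1 - k) ^ k ≤ (e + k).descFactorial k := Nat.pow_sub_le_descFactorial (e + k) k
  rw [Nat.descFactorial_eq_factorial_mul_choose] at h1
  have h2 : e + k + 1 - k = e + 1 := by omega
  rw [h2] at h1
  exact lt_of_lt_of_le (Nat.pow_lt_pow_left (by omega) (by omega)) h1

theorem level_eq {e m k : ℕ} (h1 : (e + k).choose k ≤ m) (h2 : m < (e + (k + 1)).choose (k + 1)) :
    level e m = k + 1 := by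
  unfold level
  apply le_antisymm
  · exact Nat.sInf_le h2
  · apply le_csInf ⟨k + 1, h2⟩
    intro r hr
    simp only [Set.mem_setOf_eq] at hr
    by_contra hlt
    have hrk : r ≤ k := by omega
    have : (e + r).choose r ≤ (e + k).choose k := by
      rw [← Nat.choose_symm_add, ← Nat.choose_symm_add (a := e) (b := k)]
      exact Nat.choose_le_choose _ (by omega)
    omega

end Pool.Agent.Hhelper4.NS
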